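import Pool.Agent.P8H91.Star
import Pool.Agent.Y545.HM.Ora

/-!
Construction of a coded member of the class from a nonstandard model of true arithmetic.
-/

set_option autoImplicit false

open FirstOrder FirstOrder.Language

namespace Pool.Agent.P8H91.Build

open Encodable Pool.Agent.Helper446 Pool.Agent.Helper446.Oracle Pool.Agent.Y545.HM
open Pool.Agent.H761R3.Sys Pool.Agent.P8H91.Tr Pool.Agent.P8H91.Std Pool.Agent.P8H91.Dec
open Pool.Agent.P8H91.Star Pool.Agent.P8H91.Cls Pool.Agent.P8H91.Non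

section search

variable {M : Type} {p q : M → M → M} {A : Set ℕ}

theorem re_con {α : Type} [Primcodable α] {P Q : ℕ → ℕ → ℕ}
    (hP : Gr A fun x : ℕ × ℕ => P x.1 x.2) (hQ : Gr A fun x : ℕ × ℕ => Q x.1 x.2)
    {f : ℕ → α → ℕ} (hf : ∀ i, Computable (f i)) (c : Con) :
    REIn A fun a : α => HoldsG P Q (fun i => f i a) c := by
  have h1 : ∀ i j l, REIn A fun a : α => P (f i a) (f j a) = f l a := fun i j l =>
    REIn.comp hP (f := fun a : α => ((f i a, f j a), f l a))
      (((hf i).pair (hf j)).pair (hf l))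
  have h2 : ∀ i j l, REIn A fun a : α => Q (f i a) (f j a) = f l a := fun i j l =>
    REIn.comp hQ (f := fun a : α => ((f i a, f j a), f l a))
      (((hf i).pair (hf j)).pair (hf l))
  cases c with
  | add i j l => exact h1 i j l
  | mul i j l => exact h2 i j l
  | one i =>
    refine REIn.and ?_ (h2 i i i)
    have h3 : REIn A fun a : α => ∃ d : ℕ, P (f i a) (f i a) = d ∧ ¬ d = f i a := by
      refine REIn.ex (S := fun (a : α) (d : ℕ) => P (f i a) (f i a) = d ∧ ¬ d = f i a) ?_
      refine REIn.and ?_ (REIn.of_re ?_)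
      · exact REIn.comp hP (f := fun x : α × ℕ => ((f i x.1, f i x.1), x.2))
          ((((hf i).comp Computable.fst).pair ((hf i).comp Computable.fst)).pair Computable.snd)
      · exact RE.ne Computable.snd ((hf i).comp Computable.fst)
    refine h3.of_eq fun a => ?_
    constructor
    · rintro ⟨d, rfl, h4⟩
      exact h4
    · intro h4
      exact ⟨_, rfl, h4⟩

theorem re_list {α ι : Type} [Primcodable α] {P : ι → α → Prop} (l : List ι)
    (h : ∀ i, REIn A (P i)) : REIn A fun a => ∀ i ∈ l, P i a := by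
  induction l with
  | nil => exact (REIn.of_re (RE.const True)).of_eq fun a => by simp
  | cons i l ih => exact ((h i).and ih).of_eq fun a => by simp

theorem re_sys {P Q : ℕ → ℕ → ℕ} (hP : Gr A fun x : ℕ × ℕ => P x.1 x.2)
    (hQ : Gr A fun x : ℕ × ℕ => Q x.1 x.2) {L : List Con} {k : ℕ} (hk : 1 ≤ k)
    (hL : ∀ c ∈ L, c.Below k) :
    REIn A fun n : ℕ => SysG P Q L n := by
  have h1 : REIn A fun n : ℕ => ∃ t : List ℕ, (t[0]?).getD 0 = n ∧
      ∀ c ∈ L, HoldsG P Q (fun i => (t[i]?).getD 0) c := by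
    refine REIn.ex (S := fun (n : ℕ) (t : List ℕ) => (t[0]?).getD 0 = n ∧
      ∀ c ∈ L, HoldsG P Q (fun i => (t[i]?).getD 0) c) ?_
    have hg : ∀ i : ℕ, Computable fun x : ℕ × List ℕ => (x.2[i]?).getD 0 := fun i =>
      Primrec.option_getD.to_comp.comp (by fun_prop) (by fun_prop)
    refine REIn.and (REIn.of_re (RE.eq (hg 0) (by fun_prop))) ?_
    exact re_list L fun c => re_con hP hQ hg c
  refine h1.of_eq fun n => ?_
  constructor
  · rintro ⟨t, h2, h3⟩
    exact ⟨fun i => (t[i]?).getD 0, h2, h3⟩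
  · rintro ⟨x, h2, h3⟩
    have h4 : ∀ i < k, x i = (((List.range k).map x)[i]?).getD 0 := by
      intro i hi
      rw [List.getElem?_map, List.getElem?_range hi]
      rfl
    refine ⟨(List.range k).map x, ?_, fun c hc => (h3 c hc).congr (hL c hc) h4⟩
    rw [← h4 0 (by omega), h2]

theorem sys_transport (e : M ≃ ℕ) {L : List Con} (m : M) :
    SysG (fun a b => e (p (e.symm a) (e.symm b))) (fun a b => e (q (e.symm a) (e.symm b))) L
      (e m) ↔ SysG p q L m := by
  have h1 : ∀ (x : ℕ → ℕ) (c : Con), HoldsG (fun a b => e (p (e.symm a) (e.symm b)))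
      (fun a b => e (q (e.symm a) (e.symm b))) x c ↔ HoldsG p q (fun i => e.symm (x i)) c := by
    intro x c
    cases c with
    | add i j l =>
      show e (p (e.symm (x i)) (e.symm (x j))) = x l ↔
        p (e.symm (x i)) (e.symm (x j)) = e.symm (x l)
      exact ⟨fun h => by rw [← h, Equiv.symm_apply_apply], fun h => by
        rw [h, Equiv.apply_symm_apply]⟩
    | mul i j l =>
      show e (q (e.symm (x i)) (e.symm (x j))) = x l ↔
        q (e.symm (x i)) (e.symm (x j)) = e.symm (x l)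
      exact ⟨fun h => by rw [← h, Equiv.symm_apply_apply], fun h => by
        rw [h, Equiv.apply_symm_apply]⟩
    | one i =>
      show (¬ e (p (e.symm (x i)) (e.symm (x i))) = x i ∧
        e (q (e.symm (x i)) (e.symm (x i))) = x i) ↔
        (¬ p (e.symm (x i)) (e.symm (x i)) = e.symm (x i) ∧
          q (e.symm (x i)) (e.symm (x i)) = e.symm (x i))
      refine and_congr (not_congr ?_) ?_
      · exact (Equiv.eq_symm_apply e).symm
      · exact (Equiv.eq_symm_apply e).symm
  constructor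
  · rintro ⟨x, h2, h3⟩
    refine ⟨fun i => e.symm (x i), ?_, fun c hc => (h1 x c).1 (h3 c hc)⟩
    show e.symm (x 0) = m
    rw [h2, Equiv.symm_apply_apply]
  · rintro ⟨x, h2, h3⟩
    refine ⟨fun i => e (x i), congrArg e h2, fun c hc => (h1 _ c).2 ?_⟩
    simp only [Equiv.symm_apply_apply]
    exact h3 c hc

end search

section construction

variable [LL.Structure ℕ] {M : Type} [LL.Structure M] {p q : M → M → M}

/-- Every arithmetical set is coded in the model. -/
theorem exists_code (hN : Ar ℕ (fun a b => a + b) (fun a b => a * b)) (hM : Ar M p q)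
    (hMN : LL.ElementarilyEquivalent M ℕ) {b : M} (hb : ∀ k, star M (fun n => k ≤ n) b)
    {S : ℕ → Prop} (hS : Arith S) :
    ∃ x : M, ∀ k, (star M (fun n => n.testBit k = true) x ↔ S k) := by
  classical
  obtain ⟨nm, hnm, hnm2⟩ := exists_nm hMN hN
  have hLT : Arith fun y => lft y < rgt y :=
    arith_of_re hN (RE.lt (by fun_prop) (by fun_prop))
  have hBT : Arith fun y => (lft y).testBit (rgt y) = true :=
    arith_of_re hN (RE.eq (by fun_prop) (by fun_prop))
  have hB1 : ∀ k, Arith fun y => y.testBit k = true := fun k =>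
    arith_of_re hN (RE.eq (by fun_prop) (by fun_prop))
  have key := (((((tr_star_pr (M := M) hN hM hLT (Sum.inr () : (Unit ⊕ Unit) ⊕ Unit)
    (Sum.inl (Sum.inl ()))).imp
    (((tr_star_pr (M := M) hN hM hBT (Sum.inl (Sum.inr ()) : (Unit ⊕ Unit) ⊕ Unit)
      (Sum.inr ())).imp (tr_star hS (Sum.inr ()))).and
      ((tr_star hS (Sum.inr ())).imp (tr_star_pr (M := M) hN hM hBT
        (Sum.inl (Sum.inr ()) : (Unit ⊕ Unit) ⊕ Unit) (Sum.inr ()))))).all).ex).univ hMN
    (fun v => by
      refine ⟨fun _ => code (fun k => decide (S k)) (v ()), fun w => ?_⟩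
      simp only [Sum.elim_inr, Sum.elim_inl, lft_pr, rgt_pr]
      intro h1
      rw [testBit_code, if_pos h1]
      simp)) (fun _ => b)
  obtain ⟨x, hx⟩ := key
  refine ⟨x (), fun k => ?_⟩
  have h1 := hx (fun _ => nm k)
  simp only [Sum.elim_inr, Sum.elim_inl] at h1
  obtain ⟨h2, h3⟩ := h1 (star_pr2 hMN hN hM (arith_eq hN k) (arith_le hN (k + 1)) hLT
    (fun u x h4 h5 => by rw [lft_pr, rgt_pr]; omega) (hnm k) (hb (k + 1)))
  have h4 : star M S (nm k) ↔ S k := by
    constructor
    · intro h5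
      by_contra h6
      have h7 := star_imp hMN (arith_eq hN k) hS.not (fun n h8 => by rw [h8]; exact h6) (hnm k)
      rw [star_not hMN hS] at h7
      exact h7 h5
    · intro h5
      exact star_imp hMN (arith_eq hN k) hS (fun n h6 => by rw [h6]; exact h5) (hnm k)
  have h5 : star M (fun y => (lft y).testBit (rgt y) = true) (prM p q (x ()) (nm k)) ↔
      star M (fun y => y.testBit k = true) (x ()) := by
    constructor
    · intro h6
      by_contra h7
      rw [← star_not hMN (hB1 k)] at h7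
      have h8 := star_pr2 hMN hN hM (hB1 k).not (arith_eq hN k) hBT.not
        (fun u x h9 h10 => by rw [lft_pr, rgt_pr, h10]; exact h9) h7 (hnm k)
      rw [star_not hMN hBT] at h8
      exact h8 h6
    · intro h6
      exact star_pr2 hMN hN hM (hB1 k) (arith_eq hN k) hBT
        (fun u x h9 h10 => by rw [lft_pr, rgt_pr, h10]; exact h9) h6 (hnm k)
  rw [← h4, ← h5]
  exact ⟨h2, h3⟩

theorem build (hN : Ar ℕ (fun a b => a + b) (fun a b => a * b)) (hM : Ar M p q)
    (hMN : LL.ElementarilyEquivalent M ℕ) (hne : IsEmpty (LL.Equiv M ℕ)) (e : M ≃ ℕ)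
    {A : Set ℕ} (hP : Gr A fun x : ℕ × ℕ => e (p (e.symm x.1) (e.symm x.2)))
    (hQ : Gr A fun x : ℕ × ℕ => e (q (e.symm x.1) (e.symm x.2))) :
    ∃ Y : ℕ → Bool, (∀ s, Okq fbW Y s) ∧ Gr A Y ∧ ∀ S : ℕ → Prop, Arith S →
      ∃ i r, ∀ k, (S k ↔ Y (Nat.pair (i + 1) (Nat.pair r k)) = true) := by
  obtain ⟨b, hb⟩ := exists_big hMN hN hM hne
  obtain ⟨nm, hnm, hnm2⟩ := exists_nm hMN hN
  -- numerals are computable
  have hnmc : Gr A fun k => e (nm k) := by
    have h1 : Gr A fun x : ℕ => e (p (e.symm x) (nm 1)) := by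
      refine (hP.pre (g := fun x : ℕ => (x, e (nm 1))) (by fun_prop)).of_eq fun x => ?_
      simp
    refine (Gr.iter h1 (e (nm 0))).of_eq fun k => ?_
    induction k with
    | zero => rfl
    | succ k ih =>
      rw [Function.iterate_succ_apply', ih, Equiv.symm_apply_apply, nm_add hMN hN hM hnm hnm2]
  -- the systems of equations
  have hsys := fun i : Bool => exists_sys (CH i) (dc_CH i).1
  choose kk LS hkk hLS hCH using hsys
  have hCHa : ∀ i, Arith (CH i) := fun i => arith_of_dc hN (dc_CH i)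
  have hCHM : ∀ i (m : M), SysG p q (LS i) m ↔ star M (CH i) m := by
    intro i m
    have h1 : ∀ n, CH i n ↔ SysG (fun a b => a + b) (fun a b => a * b) (LS i) n := by
      intro n
      rw [hCH]
      unfold SysG
      simp only [holdsG_nat]
    have h2 := (((Tr.sys hN hM (hkk i) (hLS i)).imp (tr_star (M := M) (hCHa i) ())).and
      ((tr_star (M := M) (hCHa i) ()).imp (Tr.sys hN hM (hkk i) (hLS i)))).univ hMN
      (fun v => ⟨(h1 _).2, (h1 _).1⟩) (fun _ => m)
    exact ⟨h2.1, h2.2⟩
  -- arithmetical predicates used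
  have aNN : ∀ j l w c, Arith fun u => NN j l w u c := fun j l w c =>
    arith_of_dc hN (dc_NN (by fun_prop) (by fun_prop) (by fun_prop) (by fun_prop) (by fun_prop))
  have aCh : ∀ i l w, Arith fun u => Ch i l w u := fun i l w =>
    arith_of_dc hN (dc_Ch i (by fun_prop) (by fun_prop) (by fun_prop))
  have aBs : ∀ j c, Arith fun u => c ≤ bs j u := fun j c =>
    arith_of_re hN (RE.le (by fun_prop) (by unfold bs; fun_prop))
  have aOb : ∀ j i k, Arith fun u => ob j u i k = true := fun j i k =>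
    arith_of_re hN (RE.eq (by unfold ob; fun_prop) (by fun_prop))
  have aBit : ∀ k, Arith fun u => u.testBit k = true := fun k =>
    arith_of_re hN (RE.eq (by fun_prop) (by fun_prop))
  -- the step relation
  let NX : ℕ × ℕ × ℕ → ℕ × ℕ × ℕ → Prop := fun a a' =>
    a'.1 = a.1 + 1 ∧ a'.2.2 = e (prM p q (e.symm a.2.2) (e.symm a.1)) ∧
      ∃ t : Bool × ℕ, a'.2.1 = ext a.1 a.2.1 t.1 ∧
        t.2 = e (prM p q (nm (Nat.pair a.1 a.2.1)) (e.symm a'.2.2)) ∧
        ((t.1 = false ∧ SysG (fun a b => e (p (e.symm a) (e.symm b)))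
          (fun a b => e (q (e.symm a) (e.symm b))) (LS false) t.2) ∨
          (t.1 = true ∧ SysG (fun a b => e (p (e.symm a) (e.symm b)))
          (fun a b => e (q (e.symm a) (e.symm b))) (LS true) t.2))
  have hpr : Gr A fun x : ℕ × ℕ => e (prM p q (e.symm x.1) (e.symm x.2)) := by
    have h2 : Gr A fun x : ℕ × ℕ => e (q (p (e.symm x.1) (e.symm x.2))
        (p (e.symm x.1) (e.symm x.2))) := (hQ.comp (hP.pair hP)).of_eq fun x => by simp
    exact (hP.comp (h2.pair (Gr.of_comp Computable.fst))).of_eq fun x => by simp [prM]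
  have hNXre : REIn A fun x : (ℕ × ℕ × ℕ) × (ℕ × ℕ × ℕ) => NX x.1 x.2 := by
    refine REIn.and (REIn.of_re (RE.eq (by fun_prop) (by fun_prop))) (REIn.and ?_ ?_)
    · have h1 : Gr A fun x : (ℕ × ℕ × ℕ) × (ℕ × ℕ × ℕ) =>
          e (prM p q (e.symm x.1.2.2) (e.symm x.1.1)) :=
        hpr.pre (g := fun x : (ℕ × ℕ × ℕ) × (ℕ × ℕ × ℕ) => (x.1.2.2, x.1.1)) (by fun_prop)
      refine (REIn.comp h1 (f := fun x : (ℕ × ℕ × ℕ) × (ℕ × ℕ × ℕ) => (x, x.2.2.2))
        (by fun_prop)).of_eq fun x => eq_comm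
    · refine REIn.ex (S := fun (x : (ℕ × ℕ × ℕ) × (ℕ × ℕ × ℕ)) (t : Bool × ℕ) =>
        x.2.2.1 = ext x.1.1 x.1.2.1 t.1 ∧
        t.2 = e (prM p q (nm (Nat.pair x.1.1 x.1.2.1)) (e.symm x.2.2.2)) ∧
        ((t.1 = false ∧ SysG (fun a b => e (p (e.symm a) (e.symm b)))
          (fun a b => e (q (e.symm a) (e.symm b))) (LS false) t.2) ∨
          (t.1 = true ∧ SysG (fun a b => e (p (e.symm a) (e.symm b)))
          (fun a b => e (q (e.symm a) (e.symm b))) (LS true) t.2))) ?_
      refine REIn.and (REIn.of_re (RE.eq (by fun_prop) ?_)) (REIn.and ?_ ?_)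
      · have h1 : Computable fun y : ((ℕ × ℕ × ℕ) × (ℕ × ℕ × ℕ)) × (Bool × ℕ) =>
            bif y.2.1 then ext y.1.1.1 y.1.1.2.1 true else ext y.1.1.1 y.1.1.2.1 false :=
          RE.ccond (by fun_prop) (cext (by fun_prop) (by fun_prop) _)
            (cext (by fun_prop) (by fun_prop) _)
        exact h1.of_eq fun y => by cases y.2.1 <;> rfl
      · have h0 : Gr A fun x : (ℕ × ℕ × ℕ) × (ℕ × ℕ × ℕ) =>
            e (nm (Nat.pair x.1.1 x.1.2.1)) :=
          hnmc.pre (g := fun x : (ℕ × ℕ × ℕ) × (ℕ × ℕ × ℕ) => Nat.pair x.1.1 x.1.2.1)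
            (by fun_prop)
        have h1 : Gr A fun x : (ℕ × ℕ × ℕ) × (ℕ × ℕ × ℕ) =>
            e (prM p q (nm (Nat.pair x.1.1 x.1.2.1)) (e.symm x.2.2.2)) :=
          (hpr.comp (h0.pair (Gr.of_comp (f := fun x : (ℕ × ℕ × ℕ) × (ℕ × ℕ × ℕ) => x.2.2.2)
            (by fun_prop)))).of_eq fun x => by simp
        refine (REIn.comp h1 (f := fun y : ((ℕ × ℕ × ℕ) × (ℕ × ℕ × ℕ)) × (Bool × ℕ) =>
          (y.1, y.2.2)) (by fun_prop)).of_eq fun x => eq_comm
      · refine REIn.or (REIn.and (REIn.of_re (RE.eq (by fun_prop) (by fun_prop))) ?_)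
          (REIn.and (REIn.of_re (RE.eq (by fun_prop) (by fun_prop))) ?_)
        · exact (re_sys hP hQ (hkk false) (hLS false)).comp
            (f := fun y : ((ℕ × ℕ × ℕ) × (ℕ × ℕ × ℕ)) × (Bool × ℕ) => y.2.2) (by fun_prop)
        · exact (re_sys hP hQ (hkk true) (hLS true)).comp
            (f := fun y : ((ℕ × ℕ × ℕ) × (ℕ × ℕ × ℕ)) × (Bool × ℕ) => y.2.2) (by fun_prop)
  -- meaning of the step relation
  have hCHpr : ∀ i l w (u : M), star M (CH i) (prM p q (nm (Nat.pair l w)) u) ↔
      star M (fun u => Ch i l w u) u := by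
    intro i l w u
    constructor
    · intro h1
      by_contra h2
      rw [← star_not hMN (aCh i l w)] at h2
      have h3 := star_pr2 hMN hN hM (arith_eq hN (Nat.pair l w)) (aCh i l w).not (hCHa i).not
        (fun a x h4 h5 => by rw [h4, CH_pr]; exact h5) (hnm _) h2
      rw [star_not hMN (hCHa i)] at h3
      exact h3 h1
    · intro h1
      exact star_pr2 hMN hN hM (arith_eq hN (Nat.pair l w)) (aCh i l w) (hCHa i)
        (fun a x h4 h5 => by rw [h4, CH_pr]; exact h5) (hnm _) h1
  have hNXex : ∀ a, ∃ a', NX a a' := by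
    intro a
    obtain ⟨u, hu⟩ : ∃ u, u = prM p q (e.symm a.2.2) (e.symm a.1) := ⟨_, rfl⟩
    rcases star_or hMN (aCh false a.1 a.2.1) (aCh true a.1 a.2.1) (fun n => S1 _ _ n) u with h1 | h1
    · rw [← hCHpr, ← hCHM, ← sys_transport e] at h1
      refine ⟨(a.1 + 1, ext a.1 a.2.1 false, e u), rfl, by rw [hu], (false, _), rfl, rfl,
        Or.inl ⟨rfl, ?_⟩⟩
      simp only [Equiv.symm_apply_apply]
      exact h1
    · rw [← hCHpr, ← hCHM, ← sys_transport e] at h1
      refine ⟨(a.1 + 1, ext a.1 a.2.1 true, e u), rfl, by rw [hu], (true, _), rfl, rfl,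
        Or.inr ⟨rfl, ?_⟩⟩
      simp only [Equiv.symm_apply_apply]
      exact h1
  obtain ⟨f, hfG, hf⟩ := choice hNXre hNXex
  have hf2 : ∀ a, (f a).1 = a.1 + 1 ∧
      e.symm (f a).2.2 = prM p q (e.symm a.2.2) (e.symm a.1) ∧
      ∃ i, (f a).2.1 = ext a.1 a.2.1 i ∧
        star M (fun u => Ch i a.1 a.2.1 u) (e.symm (f a).2.2) := by
    intro a
    obtain ⟨h1, h2, t, h3, h4, h5⟩ := hf a
    refine ⟨h1, by rw [h2, Equiv.symm_apply_apply], t.1, h3, ?_⟩
    rw [← hCHpr, ← hCHM, ← sys_transport e, ← h4]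
    rcases h5 with ⟨h5, h6⟩ | ⟨h5, h6⟩
    · rw [h5]; exact h6
    · rw [h5]; exact h6
  let st : ℕ → ℕ × ℕ × ℕ := fun n => f^[n] (0, 0, e b)
  have hst : Gr A st := Gr.iter hfG _
  have hsucc : ∀ n, st (n + 1) = f (st n) := fun n => Function.iterate_succ_apply' f n _
  have hst1 : ∀ n, (st n).1 = n := by
    intro n
    induction n with
    | zero => rfl
    | succ n ih => rw [hsucc, (hf2 _).1, ih]
  -- the bit sequence
  let Y : ℕ → Bool := fun k => (st (k + 1)).2.1.testBit k
  have hYG : Gr A Y := by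
    have h1 : Gr A fun k : ℕ => (st (k + 1), k) :=
      (hst.pre (g := fun k : ℕ => k + 1) (by fun_prop)).pair (Gr.of_comp Computable.id)
    exact Gr.post (g := fun x : (ℕ × ℕ × ℕ) × ℕ => x.1.2.1.testBit x.2) (by fun_prop) h1
  have hstep : ∀ n, ∃ i, (st (n + 1)).2.1 = ext n (st n).2.1 i ∧
      star M (fun u => Ch i n (st n).2.1 u) (e.symm (st (n + 1)).2.2) := by
    intro n
    obtain ⟨-, -, h3⟩ := hf2 (st n)
    rw [hst1] at h3
    rw [hsucc]
    exact h3
  have hstepu : ∀ n, e.symm (st (n + 1)).2.2 = prM p q (e.symm (st n).2.2) (e.symm n) := by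
    intro n
    obtain ⟨-, h2, -⟩ := hf2 (st n)
    rw [hst1] at h2
    rw [hsucc]
    exact h2
  have hbit : ∀ n k, k < n → (st n).2.1.testBit k = Y k := by
    intro n
    induction n with
    | zero => intro k hk; omega
    | succ n ih =>
      intro k hk
      obtain ⟨i, h1, -⟩ := hstep n
      by_cases h2 : k = n
      · subst h2
        rfl
      · rw [h1, testBit_ext, if_pos (by omega)]
        exact ih k (by omega)
  have hmod : ∀ n i, i ≤ n → (st n).2.1 % 2 ^ i = (st i).2.1 % 2 ^ i := by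
    intro n i hi
    apply Nat.eq_of_testBit_eq
    intro k
    rw [Nat.testBit_mod_two_pow, Nat.testBit_mod_two_pow]
    by_cases hk : k < i
    · rw [hbit n k (by omega), hbit i k hk]
    · simp [hk]
  -- the invariant
  have hinv : ∀ n, (∀ c, n < c → star M (fun u => NN n n (st n).2.1 u c) (e.symm (st n).2.2)) ∧
      (∀ c, star M (fun u => c ≤ bs n u) (e.symm (st n).2.2)) ∧
      ∀ i < n, ∀ k, (star M (fun u => ob n u i k = true) (e.symm (st n).2.2) ↔
        star M (fun u => u.testBit k = true) (e.symm i)) := by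
    intro n
    induction n with
    | zero =>
      refine ⟨fun c _ => ?_, fun c => ?_, fun i hi => absurd hi (by omega)⟩
      · exact star_all hMN (aNN _ _ _ _) (fun u => S4 _ u c) _
      · have h1 : e.symm (st 0).2.2 = b := by
          show e.symm (e b) = b
          simp
        rw [h1]
        exact hb c
    | succ n ih =>
      obtain ⟨h1, h2, h3⟩ := ih
      obtain ⟨i, h4, h5⟩ := hstep n
      have h6 := hstepu n
      have h7 : ∀ c, star M (fun u => c ≤ bs (n + 1) u) (e.symm (st (n + 1)).2.2) := by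
        intro c
        rw [h6]
        exact star_pr1 hMN hN hM (aBs n c) (aBs (n + 1) c)
          (fun u x h => by rw [bs_succ]; exact h) _ (h2 c)
      refine ⟨fun c hc => ?_, h7, fun i' hi' k => ?_⟩
      · obtain ⟨c', hc', h8⟩ := S3 n (st n).2.1 c
        have h9 : star M (fun u => NN (n + 1) n (st n).2.1 u c) (e.symm (st (n + 1)).2.2) := by
          rw [h6]
          exact star_pr1 hMN hN hM (aNN n n _ c') (aNN (n + 1) n _ c) h8 _ (h1 c' hc')
        rw [h4]
        exact star_imp3 hMN (aCh i n _) (aBs (n + 1) c) (aNN (n + 1) n _ c)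
          (aNN (n + 1) (n + 1) _ c) (fun u h10 h11 h12 => S2 (by omega) h10 h11 h12) h5 (h7 c) h9
      · rcases Nat.lt_succ_iff_lt_or_eq.1 hi' with hi' | rfl
        · rw [← h3 i' hi' k, h6]
          constructor
          · intro h8
            by_contra h9
            rw [← star_not hMN (aOb n i' k)] at h9
            have h10 := star_pr1 hMN hN hM (aOb n i' k).not (aOb (n + 1) i' k).not
              (fun u x h => by rw [ob_low hi']; exact h) (e.symm n) h9
            rw [star_not hMN (aOb (n + 1) i' k)] at h10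
            exact h10 h8
          · exact star_pr1 hMN hN hM (aOb n i' k) (aOb (n + 1) i' k)
              (fun u x h => by rw [ob_low hi']; exact h) (e.symm n)
        · rw [h6]
          have hT : Arith fun _ : ℕ => True := arith_of_re hN (RE.const True)
          have hT1 : star M (fun _ : ℕ => True) (e.symm (st i').2.2) :=
            star_all hMN hT (fun _ => trivial) _
          constructor
          · intro h8
            by_contra h9
            rw [← star_not hMN (aBit k)] at h9
            have h10 := star_pr2 hMN hN hM hT (aBit k).not (aOb (i' + 1) i' k).not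
              (fun u x _ h => by rw [ob_top]; exact h) hT1 h9
            rw [star_not hMN (aOb (i' + 1) i' k)] at h10
            exact h10 h8
          · intro h8
            exact star_pr2 hMN hN hM hT (aBit k) (aOb (i' + 1) i' k)
              (fun u x _ h => by rw [ob_top]; exact h) hT1 h8
  refine ⟨Y, fun s => ?_, hYG, fun S hS => ?_⟩
  · obtain ⟨h1, -, -⟩ := hinv s
    have h2 : Okq fbW (fun k => (st s).2.1.testBit k) s := by
      by_contra hcon
      exact star_none hMN (aNN s s (st s).2.1 (s + 1))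
        (fun u hu => hcon (S5a (by omega) hu)) _ (h1 (s + 1) (by omega))
    exact h2.dep fun q hq => hbit s q hq
  · obtain ⟨x, hx⟩ := exists_code hN hM hMN hb hS
    refine ⟨e x, pix (e x) ((st (e x)).2.1 % 2 ^ (e x)), fun k => ?_⟩
    obtain ⟨pos, hpos⟩ : ∃ pos, pos = Nat.pair (e x + 1)
      (Nat.pair (pix (e x) ((st (e x)).2.1 % 2 ^ (e x))) k) := ⟨_, rfl⟩
    rw [← hx, ← hpos]
    obtain ⟨n, hn1, hn2⟩ : ∃ n, pos < n ∧ e x < n := ⟨pos + e x + 1, by omega, by omega⟩
    obtain ⟨h1, -, h3⟩ := hinv n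
    have h4 := h3 (e x) hn2 k
    rw [Equiv.symm_apply_apply] at h4
    rw [← h4]
    have hps : ps pix (st n).2.1 (e x) k = pos := by
      unfold ps
      rw [hmod n (e x) hn2.le, hpos]
    have h5 : ∀ u, NN n n (st n).2.1 u (n + 1) → ob n u (e x) k = (st n).2.1.testBit pos := by
      intro u hu
      rw [← hps]
      exact S5b (by omega) hn2 (by rw [hps]; exact hn1) hu
    rw [← hbit n pos hn1]
    have h6 := h1 (n + 1) (by omega)
    constructor
    · intro h7
      by_contra h8
      have h9 := star_imp hMN (aNN n n _ (n + 1)) (aOb n (e x) k).not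
        (fun u hu => by rw [h5 u hu]; exact h8) h6
      rw [star_not hMN (aOb n (e x) k)] at h9
      exact h9 h7
    · intro h7
      exact star_imp hMN (aNN n n _ (n + 1)) (aOb n (e x) k)
        (fun u hu => by rw [h5 u hu]; exact h7) h6

end construction

end Pool.Agent.P8H91.Build
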