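import Mathlib

/-!
A self-referential closed class of Cantor space in which arbitrary bits can be coded.
-/

set_option autoImplicit false

namespace Pool.Agent.P8H91.Cls

/-- Position `q` comes before position `pos`: column `0` is last, the other columns are ordered
lexicographically. -/
def Low (pos q : ℕ) : Prop :=
  q.unpair.1 ≠ 0 ∧ (pos.unpair.1 = 0 ∨ q.unpair.1 < pos.unpair.1 ∨
    (q.unpair.1 = pos.unpair.1 ∧ q.unpair.2 < pos.unpair.2))

theorem low_wf : WellFounded (fun q pos => Low pos q) := by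
  let rk : ℕ → ℕ ×ₗ (ℕ ×ₗ ℕ) := fun q =>
    toLex (if q.unpair.1 = 0 then 1 else 0, toLex (q.unpair.1, q.unpair.2))
  have h : ∀ q pos, Low pos q → rk q < rk pos := by
    intro q pos h
    obtain ⟨h1, h2⟩ := h
    simp only [rk]
    rw [Prod.Lex.toLex_lt_toLex]
    rw [if_neg h1]
    by_cases h0 : pos.unpair.1 = 0
    · left
      simp [h0]
    · right
      rw [if_neg h0]
      refine ⟨rfl, ?_⟩
      rw [Prod.Lex.toLex_lt_toLex]
      rcases h2 with h2 | h2 | h2
      · exact absurd h2 h0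
      · exact Or.inl h2
      · exact Or.inr h2
  exact Subrelation.wf (fun {a b} hab => h a b hab) (InvImage.wf rk wellFounded_lt)

theorem not_low_self (q : ℕ) : ¬ Low q q := by
  rintro ⟨h1, h2⟩
  omega

/-- Compactness of the space of sequences with values in a finite type. -/
theorem compactness {F : Type} [Finite F] (P : ℕ → (ℕ → F) → Prop)
    (hdep : ∀ s, ∃ N, ∀ Z Z' : ℕ → F, (∀ q < N, Z q = Z' q) → P s Z → P s Z')
    (hmono : ∀ s Z, P (s + 1) Z → P s Z) (hne : ∀ s, ∃ Z, P s Z) : ∃ Z, ∀ s, P s Z := by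
  let _ : TopologicalSpace F := ⊥
  have _ : DiscreteTopology F := ⟨rfl⟩
  have hcl : ∀ s, IsClosed {Z | P s Z} := by
    intro s
    obtain ⟨N, hN⟩ := hdep s
    let r : (ℕ → F) → (Fin N → F) := fun Z i => Z i
    have hr : Continuous r := by fun_prop
    have e : {Z | P s Z} = r ⁻¹' (r '' {Z | P s Z}) := by
      ext Z
      constructor
      · intro h
        exact ⟨Z, h, rfl⟩
      · rintro ⟨Z', h', hZ⟩
        refine hN Z' Z (fun q hq => ?_) h'
        exact congrFun hZ ⟨q, hq⟩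
    rw [e]
    exact (isClosed_discrete _).preimage hr
  have h := IsCompact.nonempty_iInter_of_sequence_nonempty_isCompact_isClosed
    (fun s => {Z | P s Z}) (fun s Z hZ => hmono s Z hZ) (fun s => hne s)
    ((hcl 0).isCompact) hcl
  obtain ⟨Z, hZ⟩ := h
  rw [Set.mem_iInter] at hZ
  exact ⟨Z, hZ⟩

/-- `fb p Y s`: the initial segment of length `s` of `Y` is found forbidden by stage `s`. -/
structure Fb (fb : ℕ → (ℕ → Bool) → ℕ → Prop) : Prop where
  mono : ∀ p Y s s', s ≤ s' → fb p Y s → fb p Y s'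
  dep : ∀ p Y Y' s, (∀ q < s, Y q = Y' q) → fb p Y s → fb p Y' s

variable {fb : ℕ → (ℕ → Bool) → ℕ → Prop}

/-- The value `i` at the position `pos` is found impossible by stage `s`. -/
def T (fb : ℕ → (ℕ → Bool) → ℕ → Prop) (pos : ℕ) (i : Bool) (Y : ℕ → Bool) (s : ℕ) : Prop :=
  ∀ Y' : ℕ → Bool, (∀ q < s, Low pos q → Y' q = Y q) → Y' pos = i →
    fb pos.unpair.2.unpair.1 Y' s

/-- The requirements on initial segments. -/
def Okq (fb : ℕ → (ℕ → Bool) → ℕ → Prop) (Y : ℕ → Bool) (s : ℕ) : Prop :=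
  ∀ r ≤ s, ∀ pos < r, ∀ i, T fb pos i Y r → ¬ T fb pos (!i) Y r → Y pos = i

theorem T.mono (hf : Fb fb) {pos : ℕ} {i : Bool} {Y : ℕ → Bool} {s s' : ℕ} (hs : s ≤ s')
    (h : T fb pos i Y s) : T fb pos i Y s' := by
  intro Y' h1 h2
  exact hf.mono _ _ _ _ hs (h Y' (fun q hq => h1 q (by omega)) h2)

theorem T.dep {pos : ℕ} {i : Bool} {Y Z : ℕ → Bool} {s : ℕ}
    (hYZ : ∀ q < s, Low pos q → Y q = Z q) (h : T fb pos i Y s) : T fb pos i Z s := by
  intro Y' h1 h2
  exact h Y' (fun q hq hl => (h1 q hq hl).trans (hYZ q hq hl).symm) h2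

theorem Okq.anti {Y : ℕ → Bool} {s s' : ℕ} (hs : s ≤ s') (h : Okq fb Y s') : Okq fb Y s :=
  fun r hr => h r (hr.trans hs)

theorem Okq.dep {Y Z : ℕ → Bool} {s : ℕ} (hYZ : ∀ q < s, Y q = Z q) (h : Okq fb Y s) :
    Okq fb Z s := by
  intro r hr pos hpos i h1 h2
  rw [← hYZ pos (by omega)]
  refine h r hr pos hpos i (h1.dep fun q hq _ => (hYZ q (by omega)).symm) (fun h3 => h2 ?_)
  exact h3.dep fun q hq _ => hYZ q (by omega)

/-- The class is nonempty. -/
theorem exists_okq (hf : Fb fb) : ∃ Y, ∀ s, Okq fb Y s := by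
  classical
  let F : ∀ pos : ℕ, (∀ q, Low pos q → Bool) → Bool := fun pos rec =>
    decide (∃ s, T fb pos true (fun q => if h : Low pos q then rec q h else false) s ∧
      ¬ T fb pos false (fun q => if h : Low pos q then rec q h else false) s)
  let Y : ℕ → Bool := low_wf.fix F
  have hY : ∀ pos, Y pos = decide (∃ s, T fb pos true Y s ∧ ¬ T fb pos false Y s) := by
    intro pos
    have h1 : Y pos = F pos (fun q _ => Y q) := low_wf.fix_eq F pos
    rw [h1]
    have h2 : ∀ i s, T fb pos i (fun q => if h : Low pos q then Y q else false) s ↔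
        T fb pos i Y s := by
      intro i s
      constructor
      · exact T.dep fun q _ hl => by simp [hl]
      · exact T.dep fun q _ hl => by simp [hl]
    simp only [F]
    congr 1
    refine propext (exists_congr fun s => ?_)
    exact and_congr (h2 true s) (not_congr (h2 false s))
  refine ⟨Y, fun s r _ pos _ i h1 h2 => ?_⟩
  cases i
  · rw [hY]
    simp only [Bool.not_false] at h2
    rw [decide_eq_false_iff_not]
    rintro ⟨t, h3, h4⟩
    rcases le_total r t with h | h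
    · exact h4 (h1.mono hf h)
    · exact h2 (h3.mono hf h)
  · rw [hY]
    simp only [Bool.not_true] at h2
    rw [decide_eq_true_eq]
    exact ⟨r, h1, h2⟩

/-- One bit can be coded. -/
theorem force (hf : Fb fb) {p : ℕ} {Y : ℕ → Bool} (hp : ∀ s, ¬ fb p Y s)
    (hY : ∀ s, Okq fb Y s) {pos : ℕ} (hpos : pos.unpair.2.unpair.1 = p) (i : Bool) :
    ∃ Y', (∀ s, ¬ fb p Y' s) ∧ (∀ q, Low pos q → Y' q = Y q) ∧ Y' pos = i := by
  have hT : ∀ s, ¬ T fb pos i Y s := by
    intro s hs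
    have h1 : T fb pos i Y (max s (pos + 1)) := hs.mono hf (le_max_left _ _)
    have h2 : Y pos = i ∨ T fb pos (!i) Y (max s (pos + 1)) := by
      by_contra hcon
      push Not at hcon
      exact hcon.1 (hY _ _ le_rfl pos (by omega) i h1 hcon.2)
    have h3 : fb p Y (max s (pos + 1)) := by
      by_cases h4 : Y pos = i
      · rw [← hpos]
        exact h1 Y (fun _ _ _ => rfl) h4
      · rcases h2 with h2 | h2
        · exact absurd h2 h4
        · rw [← hpos]
          refine h2 Y (fun _ _ _ => rfl) ?_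
          cases i <;> cases h5 : Y pos <;> simp_all
    exact hp _ h3
  have h := compactness (F := Bool)
    (fun s Y' => ¬ fb p Y' s ∧ (∀ q < s, Low pos q → Y' q = Y q) ∧ Y' pos = i)
    (fun s => ⟨s + pos + 1, fun Z Z' hZ h => ⟨fun h2 => h.1
      (hf.dep _ _ _ _ (fun q hq => (hZ q (by omega)).symm) h2),
      fun q hq hl => by rw [← hZ q (by omega)]; exact h.2.1 q hq hl,
      by rw [← hZ pos (by omega)]; exact h.2.2⟩⟩)
    (fun s Z h => ⟨fun h2 => h.1 (hf.mono _ _ _ _ (by omega) h2),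
      fun q hq => h.2.1 q (by omega), h.2.2⟩)
    (fun s => by
      have := hT s
      unfold T at this
      push Not at this
      obtain ⟨Y', h1, h2, h3⟩ := this
      rw [hpos] at h3
      exact ⟨Y', h3, h1, h2⟩)
  obtain ⟨Z, hZ⟩ := h
  exact ⟨Z, fun s => (hZ s).1, fun q hl => (hZ (q + 1)).2.1 q (by omega) hl, (hZ 0).2.2⟩

/-- Infinitely many bits can be coded in one column. -/
theorem coding (hf : Fb fb) {p : ℕ} (hC : ∀ Y, (∀ s, ¬ fb p Y s) → ∀ s, Okq fb Y s)
    {Y : ℕ → Bool} (hp : ∀ s, ¬ fb p Y s) {j : ℕ} (hj : j ≠ 0) (X : ℕ → Bool) :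
    ∃ Y', (∀ s, ¬ fb p Y' s) ∧ (∀ q, q.unpair.1 ≠ 0 → q.unpair.1 < j → Y' q = Y q) ∧
      ∀ k, Y' (Nat.pair j (Nat.pair p k)) = X k := by
  have step : ∀ n, ∃ Y', (∀ s, ¬ fb p Y' s) ∧
      (∀ q, q.unpair.1 ≠ 0 → q.unpair.1 < j → Y' q = Y q) ∧
      ∀ k < n, Y' (Nat.pair j (Nat.pair p k)) = X k := by
    intro n
    induction n with
    | zero => exact ⟨Y, hp, fun _ _ _ => rfl, fun k hk => absurd hk (by omega)⟩
    | succ n ih =>
      obtain ⟨Y1, h1, h2, h3⟩ := ih
      obtain ⟨Y2, h4, h5, h6⟩ := force hf h1 (hC Y1 h1) (pos := Nat.pair j (Nat.pair p n))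
        (by simp) (X n)
      refine ⟨Y2, h4, fun q hq hqj => ?_, fun k hk => ?_⟩
      · rw [h5 q ⟨hq, Or.inr (Or.inl (by simpa using hqj))⟩, h2 q hq hqj]
      · rcases Nat.lt_succ_iff_lt_or_eq.1 hk with hk | rfl
        · rw [h5 _ ⟨by simpa using hj, Or.inr (Or.inr ⟨by simp, ?_⟩)⟩, h3 k hk]
          simpa using Nat.pair_lt_pair_right p hk
        · exact h6
  have h := compactness (F := Bool)
    (fun n Y' => ¬ fb p Y' n ∧ (∀ q < n, q.unpair.1 ≠ 0 → q.unpair.1 < j → Y' q = Y q) ∧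
      ∀ k < n, Y' (Nat.pair j (Nat.pair p k)) = X k)
    (fun n => ⟨Nat.pair j (Nat.pair p n) + n + 1, fun Z Z' hZ h => ⟨fun h2 => h.1
      (hf.dep _ _ _ _ (fun q hq => (hZ q (by omega)).symm) h2),
      fun q hq hl => by rw [← hZ q (by omega)]; exact h.2.1 q hq hl,
      fun k hk => by
        rw [← hZ _ ?_]
        · exact h.2.2 k hk
        · have := Nat.pair_lt_pair_right j (Nat.pair_lt_pair_right p hk)
          omega⟩⟩)
    (fun s Z h => ⟨fun h2 => h.1 (hf.mono _ _ _ _ (by omega) h2),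
      fun q hq => h.2.1 q (by omega), fun k hk => h.2.2 k (by omega)⟩)
    (fun n => by
      obtain ⟨Y', h1, h2, h3⟩ := step n
      exact ⟨Y', h1 n, fun q _ => h2 q, h3⟩)
  obtain ⟨Z, hZ⟩ := h
  exact ⟨Z, fun s => (hZ s).1, fun q h1 h2 => (hZ (q + 1)).2.1 q (by omega) h1 h2,
    fun k => (hZ (k + 1)).2.2 k (by omega)⟩

end Pool.Agent.P8H91.Cls
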