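import Pool.Agent.P8H91.Cls

/-!
Finite approximations to coded members of the class.
-/

set_option autoImplicit false

namespace Pool.Agent.P8H91.Non

open Pool.Agent.P8H91.Cls

/-- Extend the finite string given by the first `l` bits of `w` by the bit `b`. -/
def ext (l w : ℕ) (b : Bool) : ℕ := 2 ^ l * b.toNat + w % 2 ^ l

theorem testBit_ext (l w : ℕ) (b : Bool) (k : ℕ) :
    (ext l w b).testBit k = if k < l then w.testBit k else if k = l then b else false := by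
  unfold ext
  rw [Nat.testBit_two_pow_mul_add _ (Nat.mod_lt _ (by positivity))]
  by_cases h : k < l
  · rw [if_pos h, if_pos h, Nat.testBit_mod_two_pow]
    simp [h]
  · rw [if_neg h, if_neg h]
    by_cases h2 : k = l
    · subst h2
      cases b <;> simp
    · rw [if_neg h2]
      obtain ⟨m, rfl⟩ : ∃ m, k = l + (m + 1) := ⟨k - l - 1, by omega⟩
      cases b <;> simp [Nat.testBit_succ]

theorem ext_mod (l w : ℕ) (b : Bool) {i : ℕ} (hi : i ≤ l) : ext l w b % 2 ^ i = w % 2 ^ i := by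
  apply Nat.eq_of_testBit_eq
  intro k
  rw [Nat.testBit_mod_two_pow, Nat.testBit_mod_two_pow, testBit_ext]
  by_cases h : k < i
  · rw [if_pos (by omega)]
  · simp [h]

variable {fb : ℕ → (ℕ → Bool) → ℕ → Prop} {pix : ℕ → ℕ → ℕ}

/-- The position where bit `k` of the `i`th element is coded. -/
def ps (pix : ℕ → ℕ → ℕ) (w i k : ℕ) : ℕ := Nat.pair (i + 1) (Nat.pair (pix i (w % 2 ^ i)) k)

theorem ps_ext (l w : ℕ) (b : Bool) {i : ℕ} (hi : i ≤ l) (k : ℕ) :
    ps pix (ext l w b) i k = ps pix w i k := by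
  unfold ps
  rw [ext_mod l w b hi]

theorem le_ps (w i k : ℕ) : k ≤ ps pix w i k :=
  (Nat.right_le_pair _ _).trans (Nat.right_le_pair _ _)

/-- `Y` is a good approximation up to `c`. -/
def Gd (fb : ℕ → (ℕ → Bool) → ℕ → Prop) (pix : ℕ → ℕ → ℕ) (j l w : ℕ) (O : ℕ → ℕ → Bool)
    (Y : ℕ → Bool) (c : ℕ) : Prop :=
  Okq fb Y c ∧ (∀ k < c, k < l → Y k = w.testBit k) ∧
    ∀ i < j, ∀ k < c, ps pix w i k < c → Y (ps pix w i k) = O i k

/-- There is a good approximation up to `c`. -/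
def Non (fb : ℕ → (ℕ → Bool) → ℕ → Prop) (pix : ℕ → ℕ → ℕ) (j l w : ℕ) (O : ℕ → ℕ → Bool)
    (c : ℕ) : Prop := ∃ Y, Gd fb pix j l w O Y c

theorem Gd.anti {j l w : ℕ} {O : ℕ → ℕ → Bool} {Y : ℕ → Bool} {c c' : ℕ} (hc : c ≤ c')
    (h : Gd fb pix j l w O Y c') : Gd fb pix j l w O Y c :=
  ⟨h.1.anti hc, fun k hk => h.2.1 k (by omega), fun i hi k hk hp =>
    h.2.2 i hi k (by omega) (by omega)⟩

theorem Gd.dep {j l w : ℕ} {O : ℕ → ℕ → Bool} {Y Z : ℕ → Bool} {c : ℕ}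
    (hYZ : ∀ q < c, Y q = Z q) (h : Gd fb pix j l w O Y c) : Gd fb pix j l w O Z c :=
  ⟨h.1.dep hYZ, fun k hk hl => by rw [← hYZ k hk]; exact h.2.1 k hk hl, fun i hi k hk hp => by
    rw [← hYZ _ hp]; exact h.2.2 i hi k hk hp⟩

theorem Non.anti {j l w : ℕ} {O : ℕ → ℕ → Bool} {c c' : ℕ} (hc : c ≤ c')
    (h : Non fb pix j l w O c') : Non fb pix j l w O c := by
  obtain ⟨Y, hY⟩ := h
  exact ⟨Y, hY.anti hc⟩

theorem Non.congr {j l w : ℕ} {O O' : ℕ → ℕ → Bool} {c : ℕ}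
    (h : ∀ i < j, ∀ k, O i k = O' i k) (hn : Non fb pix j l w O c) : Non fb pix j l w O' c := by
  obtain ⟨Y, h1, h2, h3⟩ := hn
  exact ⟨Y, h1, h2, fun i hi k hk hp => by rw [← h i hi k]; exact h3 i hi k hk hp⟩

theorem non_init (hf : Fb fb) (w : ℕ) (O : ℕ → ℕ → Bool) (c : ℕ) : Non fb pix 0 0 w O c := by
  obtain ⟨Y, hY⟩ := exists_okq hf
  exact ⟨Y, hY c, fun k _ h => absurd h (by omega), fun i h => absurd h (by omega)⟩

/-- If there are good approximations to a large level, then one more element can be coded. -/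
theorem non_code (hf : Fb fb) (hpix : ∀ l w Y, (∀ s, ¬ fb (pix l w) Y s) ↔
      (∀ s, Okq fb Y s) ∧ ∀ k < l, Y k = w.testBit k) (j w c : ℕ) :
    ∃ c', ∀ O, Non fb pix j j w O c' → Non fb pix (j + 1) j w O c := by
  by_contra hcon
  push Not at hcon
  -- sequences of pairs: (member of the class, the new column)
  have key := compactness (F := Bool × Bool)
    (fun s Z => Okq fb (fun q => (Z q).1) s ∧ (∀ k < s, k < j → (Z k).1 = w.testBit k) ∧
      ¬ ∃ Y', Okq fb Y' c ∧ (∀ k < c, k < j → Y' k = w.testBit k) ∧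
        (∀ q < c, q.unpair.1 ≠ 0 → q.unpair.1 < j + 1 → Y' q = (Z q).1) ∧
        ∀ k < c, ps pix w j k < c → Y' (ps pix w j k) = (Z k).2)
    (fun s => ⟨s + c, fun Z Z' hZ h => ⟨h.1.dep fun q hq => by rw [hZ q (by omega)],
      fun k hk hl => by rw [← hZ k (by omega)]; exact h.2.1 k hk hl, fun h2 => h.2.2 (by
        obtain ⟨Y', h3, h4, h5, h6⟩ := h2
        exact ⟨Y', h3, h4, fun q hq h7 h8 => by rw [hZ q (by omega)]; exact h5 q hq h7 h8,
          fun k hk hp => by rw [hZ k (by omega)]; exact h6 k hk hp⟩)⟩⟩)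
    (fun s Z h => ⟨h.1.anti (by omega), fun k hk => h.2.1 k (by omega), h.2.2⟩)
    (fun s => by
      obtain ⟨O, ⟨Y, h1, h2, h3⟩, h4⟩ := hcon (s + c)
      refine ⟨fun q => (Y q, O j q), h1.anti (by omega), fun k hk => h2 k (by omega), ?_⟩
      rintro ⟨Y', h5, h6, h7, h8⟩
      refine h4 ⟨Y', h5, h6, fun i hi k hk hp => ?_⟩
      rcases Nat.lt_succ_iff_lt_or_eq.1 hi with hi | rfl
      · rw [h7 _ hp (by simp [ps]) (by simp [ps, hi])]
        exact h3 i hi k (by omega) (by omega)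
      · exact h8 k hk hp)
  obtain ⟨Z, hZ⟩ := key
  have h1 : ∀ s, ¬ fb (pix j (w % 2 ^ j)) (fun q => (Z q).1) s := by
    rw [hpix]
    refine ⟨fun s => (hZ s).1, fun k hk => ?_⟩
    rw [Nat.testBit_mod_two_pow, (hZ (k + 1)).2.1 k (by omega) hk]
    simp [hk]
  obtain ⟨Y', h2, h3, h4⟩ := coding hf (fun Y hY => ((hpix _ _ _).1 hY).1) h1
    (j := j + 1) (by omega) (fun k => (Z k).2)
  have h5 := (hpix _ _ _).1 h2
  refine (hZ 0).2.2 ⟨Y', h5.1 c, fun k _ hk => ?_, fun q _ h6 h7 => h3 q h6 h7,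
    fun k _ _ => h4 k⟩
  rw [h5.2 k hk, Nat.testBit_mod_two_pow]
  simp [hk]

theorem non_split {j l w : ℕ} {O : ℕ → ℕ → Bool} {c : ℕ} (hj : j ≤ l + 1) (hc : l < c)
    (h : Non fb pix j l w O c) : ∃ b, Non fb pix j (l + 1) (ext l w b) O c := by
  obtain ⟨Y, h1, h2, h3⟩ := h
  refine ⟨Y l, Y, h1, fun k hk hl => ?_, fun i hi k hk hp => ?_⟩
  · rw [testBit_ext]
    by_cases h4 : k < l
    · rw [if_pos h4, h2 k hk h4]
    · have : k = l := by omega
      subst this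
      simp
  · rw [ps_ext l w _ (by omega)] at hp ⊢
    exact h3 i hi k hk hp

theorem non_okq {j l w : ℕ} {O : ℕ → ℕ → Bool} {c : ℕ} (hc : l ≤ c)
    (h : Non fb pix j l w O c) : Okq fb (fun k => w.testBit k) l := by
  obtain ⟨Y, h1, h2, h3⟩ := h
  exact (h1.anti hc).dep fun q hq => h2 q (by omega) hq

theorem non_bit {j l w : ℕ} {O : ℕ → ℕ → Bool} {c i k : ℕ} (hc : l ≤ c) (hi : i < j)
    (hp : ps pix w i k < l) (h : Non fb pix j l w O c) : O i k = w.testBit (ps pix w i k) := by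
  obtain ⟨Y, h1, h2, h3⟩ := h
  have h4 := le_ps (pix := pix) w i k
  rw [← h3 i hi k (by omega) (by omega)]
  exact h2 _ (by omega) hp

end Pool.Agent.P8H91.Non
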