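import Pool.Agent.Helper446.Comp
import Pool.Agent.P8H91.Non

/-!
The concrete class: decidability of the requirements.
-/

set_option autoImplicit false

namespace Pool.Agent.P8H91.Dec

open Encodable Pool.Agent.Helper446 Pool.Agent.Helper446.RE Pool.Agent.P8H91.Cls
open Pool.Agent.P8H91.Non

section dc

variable {α β : Type*} [Primcodable α] [Primcodable β]

/-- Decidable predicates. -/
def Dc (p : α → Prop) : Prop := REPred p ∧ REPred fun a => ¬ p a

theorem Dc.of_eq {p q : α → Prop} (h : Dc p) (e : ∀ a, p a ↔ q a) : Dc q :=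
  ⟨h.1.of_eq e, h.2.of_eq fun a => not_congr (e a)⟩

theorem Dc.not {p : α → Prop} (h : Dc p) : Dc fun a => ¬ p a :=
  ⟨h.2, h.1.of_eq fun _ => not_not.symm⟩

theorem Dc.and {p q : α → Prop} (h : Dc p) (h' : Dc q) : Dc fun a => p a ∧ q a :=
  ⟨RE.and h.1 h'.1, (RE.or h.2 h'.2).of_eq fun _ => not_and_or.symm⟩

theorem Dc.or {p q : α → Prop} (h : Dc p) (h' : Dc q) : Dc fun a => p a ∨ q a :=
  ⟨RE.or h.1 h'.1, (RE.and h.2 h'.2).of_eq fun _ => not_or.symm⟩

theorem Dc.imp {p q : α → Prop} (h : Dc p) (h' : Dc q) : Dc fun a => p a → q a :=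
  (h.not.or h').of_eq fun _ => imp_iff_not_or.symm

theorem Dc.comp {p : β → Prop} (h : Dc p) {f : α → β} (hf : Computable f) :
    Dc fun a => p (f a) := ⟨RE.comp h.1 hf, RE.comp h.2 hf⟩

theorem Dc.eq {f g : α → β} (hf : Computable f) (hg : Computable g) : Dc fun a => f a = g a :=
  ⟨RE.eq hf hg, RE.ne hf hg⟩

theorem Dc.lt {f g : α → ℕ} (hf : Computable f) (hg : Computable g) : Dc fun a => f a < g a :=
  ⟨RE.lt hf hg, (RE.le hg hf).of_eq fun _ => not_lt.symm⟩

theorem Dc.le {f g : α → ℕ} (hf : Computable f) (hg : Computable g) : Dc fun a => f a ≤ g a :=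
  ⟨RE.le hf hg, (RE.lt hg hf).of_eq fun _ => not_le.symm⟩

theorem Dc.all_lt {p : α → ℕ → Prop} (hp : Dc fun x : α × ℕ => p x.1 x.2) {f : α → ℕ}
    (hf : Computable f) : Dc fun a => ∀ i < f a, p a i := by
  refine ⟨RE.all_lt hp.1 hf, ?_⟩
  have h : REPred fun a => ∃ i, i < f a ∧ ¬ p a i :=
    RE.exN (p := fun a i => i < f a ∧ ¬ p a i) (RE.and (RE.lt (by fun_prop) (by fun_prop)) hp.2)
  exact h.of_eq fun a => by push Not; rfl

theorem Dc.ex_lt {p : α → ℕ → Prop} (hp : Dc fun x : α × ℕ => p x.1 x.2) {f : α → ℕ}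
    (hf : Computable f) : Dc fun a => ∃ i, i < f a ∧ p a i :=
  (Dc.all_lt (p := fun a i => ¬ p a i) hp.not hf).not.of_eq fun a => by push Not; rfl

theorem Dc.const (P : Prop) : Dc fun _ : α => P := ⟨RE.const P, RE.const (¬ P)⟩

end dc

section comp

variable {α : Type*} [Primcodable α]

@[fun_prop] theorem cdiv {f g : α → ℕ} (hf : Computable f) (hg : Computable g) :
    Computable (fun x => f x / g x) := Primrec.nat_div.to_comp.comp hf hg
@[fun_prop] theorem cmod {f g : α → ℕ} (hf : Computable f) (hg : Computable g) :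
    Computable (fun x => f x % g x) := Primrec.nat_mod.to_comp.comp hf hg

theorem primrec_pow : Primrec₂ ((· ^ ·) : ℕ → ℕ → ℕ) := by
  have h := Primrec.nat_iff.2 Nat.Primrec.pow
  exact (h.comp (Primrec₂.natPair.comp Primrec.fst Primrec.snd)).of_eq fun x => by
    simp [Nat.unpaired]

@[fun_prop] theorem cpow {f g : α → ℕ} (hf : Computable f) (hg : Computable g) :
    Computable (fun x => f x ^ g x) := primrec_pow.to_comp.comp hf hg

@[fun_prop] theorem ctestBit {f g : α → ℕ} (hf : Computable f) (hg : Computable g) :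
    Computable (fun x => (f x).testBit (g x)) := by
  have h : Computable fun x => decide (f x / 2 ^ g x % 2 = 1) :=
    cdecide (RE.cp_eq (by fun_prop) (by fun_prop))
  exact h.of_eq fun x => by rw [Nat.testBit_eq_decide_div_mod_eq]

@[fun_prop] theorem csqrt {f : α → ℕ} (hf : Computable f) :
    Computable (fun x => Nat.sqrt (f x)) := by
  have h : Primrec Nat.sqrt := Nat.Primrec'.prim_iff₁.1 Nat.Primrec'.sqrt
  exact h.to_comp.comp hf

end comp

/-- The number coding the initial segment of length `c`. -/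
def code (Y : ℕ → Bool) (c : ℕ) : ℕ := Nat.ofBits fun i : Fin c => Y i

theorem code_lt (Y : ℕ → Bool) (c : ℕ) : code Y c < 2 ^ c := Nat.ofBits_lt_two_pow _

theorem testBit_code (Y : ℕ → Bool) (c k : ℕ) :
    (code Y c).testBit k = if k < c then Y k else false := by
  unfold code
  by_cases h : k < c
  · rw [Nat.testBit_ofBits_lt _ _ h, if_pos h]
  · rw [Nat.testBit_ofBits_ge _ _ (by omega), if_neg h]

theorem code_congr {Y Z : ℕ → Bool} {c : ℕ} (h : ∀ q < c, Y q = Z q) : code Y c = code Z c := by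
  apply Nat.eq_of_testBit_eq
  intro k
  rw [testBit_code, testBit_code]
  by_cases hk : k < c
  · rw [if_pos hk, if_pos hk, h k hk]
  · rw [if_neg hk, if_neg hk]

theorem code_testBit (m c : ℕ) : code (fun k => m.testBit k) c = m % 2 ^ c := by
  apply Nat.eq_of_testBit_eq
  intro k
  rw [testBit_code, Nat.testBit_mod_two_pow]
  by_cases hk : k < c <;> simp [hk]

/-- The universal `Π⁰₁` classes. -/
def fbW (p : ℕ) (Y : ℕ → Bool) (s : ℕ) : Prop :=
  ∃ c, c < s + 1 ∧ wst (ℕ × ℕ) p.unpair.1 s (p.unpair.2, Nat.pair c (code Y c)) = true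

theorem fbW_fb : Fb fbW := by
  constructor
  · rintro p Y s s' hs ⟨c, hc, h⟩
    exact ⟨c, by omega, wst_mono hs h⟩
  · rintro p Y Y' s hY ⟨c, hc, h⟩
    refine ⟨c, hc, ?_⟩
    rw [← code_congr (Y := Y) (Z := Y') fun q hq => hY q (by omega)]
    exact h

theorem dc_fbW : Dc fun x : ℕ × ℕ × ℕ => fbW x.1 (fun k => x.2.1.testBit k) x.2.2 := by
  refine Dc.ex_lt (p := fun (x : ℕ × ℕ × ℕ) c => wst (ℕ × ℕ) x.1.unpair.1 x.2.2
    (x.1.unpair.2, Nat.pair c (code (fun k => x.2.1.testBit k) c)) = true) ?_ (by fun_prop)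
  simp only [code_testBit]
  refine Dc.eq ?_ (by fun_prop)
  exact wst_comp.comp (f := fun p : (ℕ × ℕ) × (ℕ × ℕ) => wst (ℕ × ℕ) p.1.1 p.1.2 p.2)
    (g := fun x : (ℕ × ℕ × ℕ) × ℕ => ((x.1.1.unpair.1, x.1.2.2),
      (x.1.1.unpair.2, Nat.pair x.2 (x.1.2.1 % 2 ^ x.2)))) (by fun_prop)

theorem dc_low : Dc fun x : ℕ × ℕ => Low x.1 x.2 := by
  unfold Low
  refine Dc.and (Dc.not (Dc.eq (by fun_prop) (by fun_prop)))
    (Dc.or (Dc.eq (by fun_prop) (by fun_prop)) (Dc.or (Dc.lt (by fun_prop) (by fun_prop))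
      (Dc.and (Dc.eq (by fun_prop) (by fun_prop)) (Dc.lt (by fun_prop) (by fun_prop)))))

theorem T_iff {pos : ℕ} {i : Bool} {m s : ℕ} (hpos : pos < s) :
    T fbW pos i (fun k => m.testBit k) s ↔
      ∀ m' < 2 ^ s, (∀ q < s, Low pos q → m'.testBit q = m.testBit q) → m'.testBit pos = i →
        fbW pos.unpair.2.unpair.1 (fun k => m'.testBit k) s := by
  constructor
  · intro h m' _ h1 h2
    exact h _ h1 h2
  · intro h Y' h1 h2
    have h3 : ∀ q < s, (code Y' s).testBit q = Y' q := by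
      intro q hq
      rw [testBit_code, if_pos hq]
    refine fbW_fb.dep _ _ _ _ h3 (h (code Y' s) (code_lt _ _) ?_ ?_)
    · intro q hq hl
      rw [h3 q hq]
      exact h1 q hq hl
    · rw [h3 pos hpos]
      exact h2

theorem dc_T (i : Bool) : Dc fun x : ℕ × ℕ × ℕ => ∀ m' < 2 ^ x.2.2,
    (∀ q < x.2.2, Low x.1 q → m'.testBit q = x.2.1.testBit q) → m'.testBit x.1 = i →
        fbW x.1.unpair.2.unpair.1 (fun k => m'.testBit k) x.2.2 := by
  refine Dc.all_lt (p := fun (x : ℕ × ℕ × ℕ) m' =>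
    (∀ q < x.2.2, Low x.1 q → m'.testBit q = x.2.1.testBit q) → m'.testBit x.1 = i →
        fbW x.1.unpair.2.unpair.1 (fun k => m'.testBit k) x.2.2) ?_ (by fun_prop)
  refine Dc.imp ?_ (Dc.imp (Dc.eq (by fun_prop) (by fun_prop)) ?_)
  · refine Dc.all_lt (p := fun (y : (ℕ × ℕ × ℕ) × ℕ) q =>
      Low y.1.1 q → y.2.testBit q = y.1.2.1.testBit q) ?_ (by fun_prop)
    refine Dc.imp ?_ (Dc.eq (by fun_prop) (by fun_prop))
    exact dc_low.comp (f := fun z : ((ℕ × ℕ × ℕ) × ℕ) × ℕ => (z.1.1.1, z.2)) (by fun_prop)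
  · exact dc_fbW.comp (f := fun y : (ℕ × ℕ × ℕ) × ℕ => (y.1.1.unpair.2.unpair.1, y.2, y.1.2.2))
      (by fun_prop)

theorem dc_okq : Dc fun x : ℕ × ℕ => Okq fbW (fun k => x.1.testBit k) x.2 := by
  have h : Dc fun x : ℕ × ℕ => ∀ r < x.2 + 1, ∀ pos < r, ∀ b < 2,
      (∀ m' < 2 ^ r, (∀ q < r, Low pos q → m'.testBit q = x.1.testBit q) →
        m'.testBit pos = decide (b = 1) →
        fbW pos.unpair.2.unpair.1 (fun k => m'.testBit k) r) →
      ¬ (∀ m' < 2 ^ r, (∀ q < r, Low pos q → m'.testBit q = x.1.testBit q) →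
        m'.testBit pos = (!decide (b = 1)) →
        fbW pos.unpair.2.unpair.1 (fun k => m'.testBit k) r) →
      x.1.testBit pos = decide (b = 1) := by
    refine Dc.all_lt (p := fun (x : ℕ × ℕ) r => ∀ pos < r, ∀ b < 2,
      (∀ m' < 2 ^ r, (∀ q < r, Low pos q → m'.testBit q = x.1.testBit q) →
        m'.testBit pos = decide (b = 1) →
        fbW pos.unpair.2.unpair.1 (fun k => m'.testBit k) r) →
      ¬ (∀ m' < 2 ^ r, (∀ q < r, Low pos q → m'.testBit q = x.1.testBit q) →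
        m'.testBit pos = (!decide (b = 1)) →
        fbW pos.unpair.2.unpair.1 (fun k => m'.testBit k) r) →
      x.1.testBit pos = decide (b = 1)) (f := fun x => x.2 + 1) ?_ (by fun_prop)
    refine Dc.all_lt (p := fun (y : (ℕ × ℕ) × ℕ) pos => ∀ b < 2,
      (∀ m' < 2 ^ y.2, (∀ q < y.2, Low pos q → m'.testBit q = y.1.1.testBit q) →
        m'.testBit pos = decide (b = 1) →
        fbW pos.unpair.2.unpair.1 (fun k => m'.testBit k) y.2) →
      ¬ (∀ m' < 2 ^ y.2, (∀ q < y.2, Low pos q → m'.testBit q = y.1.1.testBit q) →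
        m'.testBit pos = (!decide (b = 1)) →
        fbW pos.unpair.2.unpair.1 (fun k => m'.testBit k) y.2) →
      y.1.1.testBit pos = decide (b = 1)) (f := fun y => y.2) ?_ (by fun_prop)
    have h01 : ∀ {P : ((ℕ × ℕ) × ℕ) × ℕ → ℕ → Prop}, Dc (fun x => P x 0) → Dc (fun x => P x 1) →
        Dc (fun x => ∀ b < 2, P x b) := by
      intro P h0 h1
      refine (h0.and h1).of_eq fun x => ?_
      constructor
      · rintro ⟨h2, h3⟩ b hb
        obtain rfl | rfl : b = 0 ∨ b = 1 := by omega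
        · exact h2
        · exact h3
      · intro h2
        exact ⟨h2 0 (by omega), h2 1 (by omega)⟩
    have hT : ∀ i : Bool, Dc fun z : ((ℕ × ℕ) × ℕ) × ℕ =>
        ∀ m' < 2 ^ z.1.2, (∀ q < z.1.2, Low z.2 q → m'.testBit q = z.1.1.1.testBit q) →
        m'.testBit z.2 = i → fbW z.2.unpair.2.unpair.1 (fun k => m'.testBit k) z.1.2 :=
      fun i => (dc_T i).comp (f := fun z : ((ℕ × ℕ) × ℕ) × ℕ => (z.2, z.1.1.1, z.1.2))
        (by fun_prop)
    refine h01 ?_ ?_
    · exact (hT (decide ((0 : ℕ) = 1))).imp ((hT (!decide ((0 : ℕ) = 1))).not.imp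
        (Dc.eq (by fun_prop) (by fun_prop)))
    · exact (hT (decide ((1 : ℕ) = 1))).imp ((hT (!decide ((1 : ℕ) = 1))).not.imp
        (Dc.eq (by fun_prop) (by fun_prop)))
  refine h.of_eq fun x => ?_
  constructor
  · intro h2 r hr pos hpos i h3 h4
    rw [T_iff hpos] at h3 h4
    cases i
    · exact h2 r (by omega) pos hpos 0 (by omega) h3 h4
    · exact h2 r (by omega) pos hpos 1 (by omega) h3 h4
  · intro h2 r hr pos hpos b _ h3 h4
    rw [← T_iff hpos] at h3 h4
    exact h2 r (by omega) pos hpos _ h3 h4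

/-- An index of the requirements together with an initial segment. -/
theorem exists_index : ∃ e : ℕ, ∀ x : ℕ × ℕ,
    (¬ Okq fbW (fun k => x.2.unpair.2.testBit k) x.2.unpair.1 ∨
      ∃ k, k < x.2.unpair.1 ∧ (k < x.1.unpair.1 ∧
        ¬ x.2.unpair.2.testBit k = x.1.unpair.2.testBit k)) ↔
      ∃ s, wst (ℕ × ℕ) e s x = true := by
  refine wst_univ ?_
  refine RE.or ?_ ?_
  · exact (dc_okq.not.comp (f := fun x : ℕ × ℕ => (x.2.unpair.2, x.2.unpair.1))
      (by fun_prop)).1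
  · refine (Dc.ex_lt (p := fun (x : ℕ × ℕ) k => (k < x.1.unpair.1 ∧
        ¬ x.2.unpair.2.testBit k = x.1.unpair.2.testBit k)) ?_ (by fun_prop)).1
    exact Dc.and (Dc.lt (by fun_prop) (by fun_prop)) (Dc.not (Dc.eq (by fun_prop) (by fun_prop)))

/-- The index of the class of members extending the first `l` bits of `w`. -/
noncomputable def pix (l w : ℕ) : ℕ := Nat.pair exists_index.choose (Nat.pair l w)

theorem pix_spec (l w : ℕ) (Y : ℕ → Bool) : (∀ s, ¬ fbW (pix l w) Y s) ↔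
    (∀ s, Okq fbW Y s) ∧ ∀ k < l, Y k = w.testBit k := by
  have he := exists_index.choose_spec
  have h1 : ∀ c, (∃ s, wst (ℕ × ℕ) exists_index.choose s
      (Nat.pair l w, Nat.pair c (code Y c)) = true) ↔
      (¬ Okq fbW Y c ∨ ∃ k, k < c ∧ (k < l ∧ ¬ Y k = w.testBit k)) := by
    intro c
    rw [← he]
    simp only [Nat.unpair_pair]
    refine or_congr (not_congr ?_) (exists_congr fun k => and_congr_right fun hk => ?_)
    · constructor
      · exact Okq.dep fun q hq => by rw [testBit_code, if_pos hq]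
      · exact Okq.dep fun q hq => by rw [testBit_code, if_pos hq]
    · rw [testBit_code, if_pos hk]
  have h2 : (∀ s, ¬ fbW (pix l w) Y s) ↔ ∀ c, ¬ ∃ s, wst (ℕ × ℕ) exists_index.choose s
      (Nat.pair l w, Nat.pair c (code Y c)) = true := by
    unfold fbW pix
    simp only [Nat.unpair_pair]
    constructor
    · rintro h c ⟨s, hs⟩
      exact h (max s c) ⟨c, by omega, wst_mono (le_max_left _ _) hs⟩
    · rintro h s ⟨c, _, hs⟩
      exact h c ⟨s, hs⟩
  rw [h2]
  simp only [h1]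
  constructor
  · intro h
    refine ⟨fun s => ?_, fun k hk => ?_⟩
    · by_contra hcon
      exact h s (Or.inl hcon)
    · by_contra hcon
      exact h (k + 1) (Or.inr ⟨k, by omega, hk, hcon⟩)
  · rintro ⟨h3, h4⟩ c (h5 | ⟨k, _, hk, h5⟩)
    · exact h5 (h3 c)
    · exact h5 (h4 k hk)

@[fun_prop] theorem cpix {α : Type*} [Primcodable α] {f g : α → ℕ} (hf : Computable f)
    (hg : Computable g) : Computable fun x => pix (f x) (g x) := by
  unfold pix
  fun_prop

theorem dc_non_aux {α : Type*} [Primcodable α] {j l w c : α → ℕ} {ob : α → ℕ → ℕ → Bool}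
    (hj : Computable j) (hl : Computable l) (hw : Computable w) (hc : Computable c)
    (hob : Computable fun x : α × ℕ × ℕ => ob x.1 x.2.1 x.2.2) :
    Dc fun x => Non fbW pix (j x) (l x) (w x) (ob x) (c x) := by
  have h : Dc fun x : α => ∃ m, m < 2 ^ c x ∧
      (Okq fbW (fun k => m.testBit k) (c x) ∧
      (∀ k < c x, k < l x → m.testBit k = (w x).testBit k) ∧
      ∀ i < j x, ∀ k < c x, ps pix (w x) i k < c x → m.testBit (ps pix (w x) i k) = ob x i k) := by
    refine Dc.ex_lt (p := fun x m => (Okq fbW (fun k => m.testBit k) (c x) ∧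
      (∀ k < c x, k < l x → m.testBit k = (w x).testBit k) ∧
      ∀ i < j x, ∀ k < c x, ps pix (w x) i k < c x → m.testBit (ps pix (w x) i k) = ob x i k))
      ?_ (by fun_prop)
    refine Dc.and ?_ (Dc.and ?_ ?_)
    · exact dc_okq.comp (f := fun y : α × ℕ => (y.2, c y.1)) (by fun_prop)
    · refine Dc.all_lt (p := fun (y : α × ℕ) k => k < l y.1 → y.2.testBit k = (w y.1).testBit k)
        ?_ (by fun_prop)
      exact Dc.imp (Dc.lt (by fun_prop) (by fun_prop)) (Dc.eq (by fun_prop) (by fun_prop))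
    · refine Dc.all_lt (p := fun (y : α × ℕ) i => ∀ k < c y.1, ps pix (w y.1) i k < c y.1 →
        y.2.testBit (ps pix (w y.1) i k) = ob y.1 i k) ?_ (by fun_prop)
      refine Dc.all_lt (p := fun (z : (α × ℕ) × ℕ) k => ps pix (w z.1.1) z.2 k < c z.1.1 →
        z.1.2.testBit (ps pix (w z.1.1) z.2 k) = ob z.1.1 z.2 k) ?_ (by fun_prop)
      have h1 : Computable fun z : ((α × ℕ) × ℕ) × ℕ => ps pix (w z.1.1.1) z.1.2 z.2 := by
        unfold ps
        fun_prop
      refine Dc.imp (Dc.lt h1 (by fun_prop)) (Dc.eq (by fun_prop) ?_)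
      exact hob.comp (g := fun z : ((α × ℕ) × ℕ) × ℕ => (z.1.1.1, z.1.2, z.2)) (by fun_prop)
  refine h.of_eq fun x => ?_
  constructor
  · rintro ⟨m, _, h1⟩
    exact ⟨fun k => m.testBit k, h1⟩
  · rintro ⟨Y, h1⟩
    refine ⟨code Y (c x), code_lt _ _, ?_⟩
    exact h1.dep fun q hq => by rw [testBit_code, if_pos hq]

end Pool.Agent.P8H91.Dec
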