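import Pool.Agent.Helper446.Oracle
import Pool.Agent.P8H91.Dec

/-!
Column zero of a member of the class is not computable from the other columns.
-/

set_option autoImplicit false

namespace Pool.Agent.P8H91.Sep

open Encodable Pool.Agent.Helper446 Pool.Agent.Helper446.RE Pool.Agent.Helper446.Oracle
open Pool.Agent.P8H91.Cls Pool.Agent.P8H91.Dec

theorem sep {Y : ℕ → Bool} (hY : ∀ s, Okq fbW Y s)
    (hR1 : REIn {q : ℕ | q.unpair.1 ≠ 0 ∧ Y q = true} fun q : ℕ => Y q = true)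
    (hR0 : REIn {q : ℕ | q.unpair.1 ≠ 0 ∧ Y q = true} fun q : ℕ => Y q = false) : False := by
  obtain ⟨R1, hR1, h1⟩ := hR1
  obtain ⟨R0, hR0, h0⟩ := hR0
  let qq : ℕ → ℕ := fun x => Nat.pair 0 (Nat.pair (Nat.pair x x) 0)
  have hqq : Computable qq := by
    show Computable fun x : ℕ => Nat.pair 0 (Nat.pair (Nat.pair x x) 0)
    fun_prop
  have hV : REPred fun x : ℕ × ℕ => qq x.1 < x.2.unpair.1 ∧ ∃ c : List ℕ × List ℕ,
      ((x.2.unpair.2.testBit (qq x.1) = true ∧ R0 (qq x.1) c) ∨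
        (x.2.unpair.2.testBit (qq x.1) = false ∧ R1 (qq x.1) c)) ∧
      (∀ y ∈ c.1, y < x.2.unpair.1 ∧ y.unpair.1 ≠ 0 ∧ x.2.unpair.2.testBit y = true) ∧
      (∀ y ∈ c.2, y < x.2.unpair.1 ∧ (y.unpair.1 = 0 ∨ x.2.unpair.2.testBit y = false)) := by
    refine RE.and (RE.lt (by fun_prop) (by fun_prop)) ?_
    refine RE.ex (p := fun (x : ℕ × ℕ) (c : List ℕ × List ℕ) =>
      ((x.2.unpair.2.testBit (qq x.1) = true ∧ R0 (qq x.1) c) ∨
        (x.2.unpair.2.testBit (qq x.1) = false ∧ R1 (qq x.1) c)) ∧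
      (∀ y ∈ c.1, y < x.2.unpair.1 ∧ y.unpair.1 ≠ 0 ∧ x.2.unpair.2.testBit y = true) ∧
      (∀ y ∈ c.2, y < x.2.unpair.1 ∧ (y.unpair.1 = 0 ∨ x.2.unpair.2.testBit y = false))) ?_
    refine RE.and (RE.or (RE.and (RE.eq (by fun_prop) (by fun_prop)) ?_)
      (RE.and (RE.eq (by fun_prop) (by fun_prop)) ?_)) (RE.and ?_ ?_)
    · exact RE.comp hR0 (f := fun z : (ℕ × ℕ) × (List ℕ × List ℕ) => (qq z.1.1, z.2))
        (by fun_prop)
    · exact RE.comp hR1 (f := fun z : (ℕ × ℕ) × (List ℕ × List ℕ) => (qq z.1.1, z.2))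
        (by fun_prop)
    · refine RE.all_mem (p := fun (z : (ℕ × ℕ) × (List ℕ × List ℕ)) y =>
        y < z.1.2.unpair.1 ∧ y.unpair.1 ≠ 0 ∧ z.1.2.unpair.2.testBit y = true)
        (l := fun z => z.2.1) ?_ (by fun_prop)
      refine RE.and (RE.lt (by fun_prop) (by fun_prop)) (RE.and (RE.ne (by fun_prop)
        (by fun_prop)) (RE.eq (by fun_prop) (by fun_prop)))
    · refine RE.all_mem (p := fun (z : (ℕ × ℕ) × (List ℕ × List ℕ)) y =>
        y < z.1.2.unpair.1 ∧ (y.unpair.1 = 0 ∨ z.1.2.unpair.2.testBit y = false))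
        (l := fun z => z.2.2) ?_ (by fun_prop)
      refine RE.and (RE.lt (by fun_prop) (by fun_prop)) (RE.or (RE.eq (by fun_prop)
        (by fun_prop)) (RE.eq (by fun_prop) (by fun_prop)))
  obtain ⟨e, he⟩ := wst_univ hV
  have hq1 : (qq e).unpair.2.unpair.1 = Nat.pair e e := by simp [qq]
  have hq0 : (qq e).unpair.1 = 0 := by simp [qq]
  -- the true value is never found
  have hno : ∀ s, ¬ T fbW (qq e) (Y (qq e)) Y s := by
    intro s hs
    have h2 := hs Y (fun _ _ _ => rfl) rfl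
    rw [hq1] at h2
    obtain ⟨c, hc, h2⟩ := h2
    simp only [Nat.unpair_pair] at h2
    obtain ⟨h3, ci, h4, h5, h6⟩ := (he (e, Nat.pair c (code Y c))).2 ⟨s, h2⟩
    simp only [Nat.unpair_pair] at h3 h4 h5 h6
    have hb : ∀ y < c, (code Y c).testBit y = Y y := fun y hy => by
      rw [testBit_code, if_pos hy]
    have hok : Ok {q : ℕ | q.unpair.1 ≠ 0 ∧ Y q = true} ci := by
      constructor
      · intro y hy
        obtain ⟨h7, h8, h9⟩ := h5 y hy
        rw [hb y h7] at h9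
        exact ⟨h8, h9⟩
      · rintro y hy ⟨h10, h11⟩
        obtain ⟨h7, h8⟩ := h6 y hy
        rcases h8 with h8 | h8
        · exact h10 h8
        · rw [hb y h7] at h8
          rw [h8] at h11
          exact Bool.false_ne_true h11
    rw [hb _ h3] at h4
    rcases h4 with ⟨h4, h7⟩ | ⟨h4, h7⟩
    · have h8 := (h0 (qq e)).2 ⟨ci, h7, hok⟩
      rw [h8] at h4
      exact Bool.false_ne_true h4
    · have h8 := (h1 (qq e)).2 ⟨ci, h7, hok⟩
      rw [h8] at h4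
      exact Bool.false_ne_true h4.symm
  -- the false value is found
  obtain ⟨ci, hci, hok⟩ : ∃ ci, ((!(Y (qq e))) = true ∧ R0 (qq e) ci ∨
      (!(Y (qq e))) = false ∧ R1 (qq e) ci) ∧
      Ok {q : ℕ | q.unpair.1 ≠ 0 ∧ Y q = true} ci := by
    rcases hb : Y (qq e) with _ | _
    · obtain ⟨ci, h2, h3⟩ := (h0 (qq e)).1 hb
      exact ⟨ci, Or.inl ⟨rfl, h2⟩, h3⟩
    · obtain ⟨ci, h2, h3⟩ := (h1 (qq e)).1 hb
      exact ⟨ci, Or.inr ⟨rfl, h2⟩, h3⟩
  obtain ⟨n, hn, hn1, hn2⟩ : ∃ n, qq e < n ∧ (∀ y ∈ ci.1, y < n) ∧ (∀ y ∈ ci.2, y < n) := by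
    refine ⟨qq e + 1 + ci.1.sum + ci.2.sum, by omega, fun y hy => ?_, fun y hy => ?_⟩
    · have := List.le_sum_of_mem hy
      omega
    · have := List.le_sum_of_mem hy
      omega
  have hfind : ∀ Y' : ℕ → Bool, (∀ q < n, Low (qq e) q → Y' q = Y q) → Y' (qq e) = (!(Y (qq e))) →
      ∃ s, wst (ℕ × ℕ) e s (e, Nat.pair n (code Y' n)) = true := by
    intro Y' h2 h3
    rw [← he]
    simp only [Nat.unpair_pair]
    have hb : ∀ y < n, (code Y' n).testBit y = Y' y := fun y hy => by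
      rw [testBit_code, if_pos hy]
    refine ⟨hn, ci, ?_, fun y hy => ?_, fun y hy => ?_⟩
    · rw [hb _ hn, h3]
      exact hci
    · obtain ⟨h5, h6⟩ := hok.1 y hy
      refine ⟨hn1 y hy, h5, ?_⟩
      rw [hb _ (hn1 y hy), h2 y (hn1 y hy) ⟨h5, Or.inl hq0⟩]
      exact h6
    · refine ⟨hn2 y hy, ?_⟩
      by_cases h5 : y.unpair.1 = 0
      · exact Or.inl h5
      · right
        rw [hb _ (hn2 y hy), h2 y (hn2 y hy) ⟨h5, Or.inl hq0⟩]
        by_contra h6
        exact hok.2 y hy ⟨h5, by simpa using h6⟩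
  have hst : ∃ S, ∀ m < 2 ^ n, (∃ s, wst (ℕ × ℕ) e s (e, Nat.pair n m) = true) →
      wst (ℕ × ℕ) e S (e, Nat.pair n m) = true := by
    have h2 : ∀ m, ∃ s, (∃ s, wst (ℕ × ℕ) e s (e, Nat.pair n m) = true) →
        wst (ℕ × ℕ) e s (e, Nat.pair n m) = true := by
      intro m
      by_cases h3 : ∃ s, wst (ℕ × ℕ) e s (e, Nat.pair n m) = true
      · obtain ⟨s, hs⟩ := h3
        exact ⟨s, fun _ => hs⟩
      · exact ⟨0, fun h4 => absurd h4 h3⟩
    choose s hs using h2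
    exact ⟨(Finset.range (2 ^ n)).sup s, fun m hm h3 =>
      wst_mono (Finset.le_sup (Finset.mem_range.2 hm)) (hs m h3)⟩
  obtain ⟨S, hS⟩ := hst
  have hyes : T fbW (qq e) (!(Y (qq e))) Y (max S n) := by
    intro Y' h2 h3
    rw [hq1]
    refine ⟨n, by omega, ?_⟩
    simp only [Nat.unpair_pair]
    exact wst_mono (le_max_left _ _) (hS _ (code_lt _ _) (hfind Y'
      (fun q hq hl => h2 q (by omega) hl) h3))
  have h2 := hY (max S n) (max S n) le_rfl (qq e) (by omega) (!(Y (qq e))) hyes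
    (by rw [Bool.not_not]; exact hno _)
  cases hb : Y (qq e) <;> rw [hb] at h2 <;> simp at h2

end Pool.Agent.P8H91.Sep
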