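import Pool.Agent.P8H91.Tr

/-!
Interpretation of arithmetical sets in a model of true arithmetic.
-/

set_option autoImplicit false

open FirstOrder FirstOrder.Language

namespace Pool.Agent.P8H91.Star

open Pool.Agent.H761R3.Sys Pool.Agent.P8H91.Tr Pool.Agent.P8H91.Std Pool.Agent.P8H91.Dec

/-- Arithmetical predicates. -/
def Arith [LL.Structure ℕ] (R : ℕ → Prop) : Prop :=
  ∃ φ : LL.Formula Unit, ∀ v : Unit → ℕ, φ.Realize v ↔ R (v ())

/-- The interpretation of an arithmetical predicate in another structure. -/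
def star (M : Type) [LL.Structure ℕ] [LL.Structure M] (R : ℕ → Prop) (m : M) : Prop :=
  ∃ h : Arith R, h.choose.Realize fun _ => m

/-- Pairing in a structure. -/
def prM {M : Type} (p q : M → M → M) (x y : M) : M := p (q (p x y) (p x y)) x

section

variable [LL.Structure ℕ] {M : Type} [LL.Structure M] {p q : M → M → M} {α : Type}

theorem tr_star {R : ℕ → Prop} (h : Arith R) (i : α) :
    Tr ℕ M (fun v : α → ℕ => R (v i)) (fun v => star M R (v i)) := by
  have h1 : Tr ℕ M (fun v : Unit → ℕ => R (v ())) (fun v => star M R (v ())) :=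
    ⟨h.choose, fun v => h.choose_spec v, fun v => ⟨fun h2 => ⟨h, h2⟩, fun ⟨_, h2⟩ => h2⟩⟩
  exact (h1.relabel (fun _ => i)).congr (fun _ => Iff.rfl) (fun _ => Iff.rfl)

theorem Arith.not {R : ℕ → Prop} (h : Arith R) : Arith fun n => ¬ R n := by
  obtain ⟨φ, hφ⟩ := h
  exact ⟨φ.not, fun v => by rw [Formula.realize_not, hφ]⟩

theorem arith_of_re (hN : Ar ℕ (fun a b => a + b) (fun a b => a * b)) {R : ℕ → Prop}
    (h : REPred R) : Arith R := by
  obtain ⟨k, L, hk, hL, hR⟩ := exists_sys R h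
  obtain ⟨φ, h1, -⟩ := Tr.sys hN hN hk hL
  refine ⟨φ, fun v => ?_⟩
  rw [h1, hR]
  unfold SysG
  simp only [holdsG_nat]

theorem arith_of_dc (hN : Ar ℕ (fun a b => a + b) (fun a b => a * b)) {R : ℕ → Prop}
    (h : Dc R) : Arith R := arith_of_re hN h.1

theorem trF_pr (hN : Ar ℕ (fun a b => a + b) (fun a b => a * b)) (hM : Ar M p q) (i j : α) :
    TrF ℕ M (fun v : α → ℕ => pr (v i) (v j)) (fun v => prM p q (v i) (v j)) := by
  have h1 := TrF.add hN hM (TrF.var (N := ℕ) (M := M) i) (TrF.var j)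
  exact TrF.add hN hM (TrF.mul hN hM h1 h1) (TrF.var i)

theorem tr_star_pr (hN : Ar ℕ (fun a b => a + b) (fun a b => a * b)) (hM : Ar M p q)
    {R : ℕ → Prop} (h : Arith R) (i j : α) :
    Tr ℕ M (fun v : α → ℕ => R (pr (v i) (v j))) (fun v => star M R (prM p q (v i) (v j))) :=
  (tr_star h ()).subst (f := fun _ v => pr (v i) (v j)) (F := fun _ v => prM p q (v i) (v j))
    (fun _ => trF_pr hN hM i j)

variable (hMN : LL.ElementarilyEquivalent M ℕ)

include hMN

theorem star_not {R : ℕ → Prop} (h : Arith R) (m : M) :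
    star M (fun n => ¬ R n) m ↔ ¬ star M R m := by
  have h1 := (((tr_star (M := M) h.not ()).imp (tr_star h ()).not).and
    ((tr_star h ()).not.imp (tr_star h.not ()))).univ hMN (fun v => ⟨fun h => h, fun h => h⟩)
    (fun _ => m)
  exact ⟨h1.1, h1.2⟩

theorem star_imp {R S : ℕ → Prop} (hR : Arith R) (hS : Arith S) (h : ∀ n, R n → S n) {m : M}
    (h1 : star M R m) : star M S m :=
  ((tr_star (M := M) hR ()).imp (tr_star hS ())).univ hMN (fun v => h _) (fun _ => m) h1

theorem star_imp2 {R S T : ℕ → Prop} (hR : Arith R) (hS : Arith S) (hT : Arith T)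
    (h : ∀ n, R n → S n → T n) {m : M} (h1 : star M R m) (h2 : star M S m) : star M T m :=
  ((tr_star (M := M) hR ()).imp ((tr_star hS ()).imp (tr_star hT ()))).univ hMN (fun v => h _)
    (fun _ => m) h1 h2

theorem star_imp3 {R S T U : ℕ → Prop} (hR : Arith R) (hS : Arith S) (hT : Arith T)
    (hU : Arith U) (h : ∀ n, R n → S n → T n → U n) {m : M} (h1 : star M R m)
    (h2 : star M S m) (h3 : star M T m) : star M U m :=
  ((tr_star (M := M) hR ()).imp ((tr_star hS ()).imp ((tr_star hT ()).imp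
    (tr_star hU ())))).univ hMN (fun v => h _) (fun _ => m) h1 h2 h3

theorem star_or {R S : ℕ → Prop} (hR : Arith R) (hS : Arith S) (h : ∀ n, R n ∨ S n) (m : M) :
    star M R m ∨ star M S m :=
  ((tr_star (M := M) hR ()).or (tr_star hS ())).univ hMN (fun v => h _) (fun _ => m)

theorem star_all {R : ℕ → Prop} (hR : Arith R) (h : ∀ n, R n) (m : M) : star M R m :=
  (tr_star (M := M) hR ()).univ hMN (fun v => h _) (fun _ => m)

theorem star_none {R : ℕ → Prop} (hR : Arith R) (h : ∀ n, ¬ R n) (m : M) : ¬ star M R m :=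
  (tr_star (M := M) hR ()).not.univ hMN (fun v => h _) (fun _ => m)

theorem star_ex {R : ℕ → Prop} (hR : Arith R) (h : ∃ n, R n) : ∃ m, star M R m := by
  obtain ⟨n, hn⟩ := h
  obtain ⟨v, hv⟩ := (tr_star (M := M) hR ()).exi hMN ⟨fun _ => n, hn⟩
  exact ⟨_, hv⟩

theorem star_pr1 (hN : Ar ℕ (fun a b => a + b) (fun a b => a * b)) (hM : Ar M p q)
    {R S : ℕ → Prop} (hR : Arith R) (hS : Arith S) (h : ∀ u x, R u → S (pr u x)) {m : M} (y : M)
    (h1 : star M R m) : star M S (prM p q m y) :=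
  ((tr_star (M := M) hR (0 : Fin 2)).imp (tr_star_pr hN hM hS 0 1)).univ hMN
    (fun v => h _ _) ![m, y] h1

theorem star_pr2 (hN : Ar ℕ (fun a b => a + b) (fun a b => a * b)) (hM : Ar M p q)
    {R S T : ℕ → Prop} (hR : Arith R) (hS : Arith S) (hT : Arith T)
    (h : ∀ u x, R u → S x → T (pr u x)) {m y : M}
    (h1 : star M R m) (h2 : star M S y) : star M T (prM p q m y) :=
  ((tr_star (M := M) hR (0 : Fin 2)).imp ((tr_star hS 1).imp (tr_star_pr hN hM hT 0 1))).univ hMN
    (fun v => h _ _) ![m, y] h1 h2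

omit hMN in
theorem arith_eq (hN : Ar ℕ (fun a b => a + b) (fun a b => a * b)) (k : ℕ) :
    Arith fun n => n = k :=
  arith_of_re hN (Pool.Agent.Helper446.RE.eq (by fun_prop) (by fun_prop))

omit hMN in
theorem arith_le (hN : Ar ℕ (fun a b => a + b) (fun a b => a * b)) (k : ℕ) :
    Arith fun n => k ≤ n :=
  arith_of_re hN (Pool.Agent.Helper446.RE.le (by fun_prop) (by fun_prop))

omit hMN in
theorem arith_false (hN : Ar ℕ (fun a b => a + b) (fun a b => a * b)) :
    Arith fun _ => False :=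
  arith_of_re hN (Pool.Agent.Helper446.RE.const False)

/-- Numerals exist and are unique. -/
theorem exists_nm (hN : Ar ℕ (fun a b => a + b) (fun a b => a * b)) :
    ∃ nm : ℕ → M, (∀ k, star M (fun n => n = k) (nm k)) ∧
      ∀ k m, star M (fun n => n = k) m → m = nm k := by
  have h1 : ∀ k, ∃ m : M, star M (fun n => n = k) m := fun k =>
    star_ex hMN (arith_eq hN k) ⟨k, rfl⟩
  choose nm hnm using h1
  refine ⟨nm, hnm, fun k m hm => ?_⟩
  exact ((tr_star (M := M) (arith_eq hN k) (0 : Fin 2)).imp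
    ((tr_star (arith_eq hN k) 1).imp (Tr.eq 0 1))).univ hMN
    (fun v h2 h3 => h2.trans h3.symm) ![m, nm k] hm (hnm k)

theorem nm_add (hN : Ar ℕ (fun a b => a + b) (fun a b => a * b)) (hM : Ar M p q) {nm : ℕ → M}
    (h1 : ∀ k, star M (fun n => n = k) (nm k))
    (h2 : ∀ k m, star M (fun n => n = k) m → m = nm k) (i j : ℕ) :
    p (nm i) (nm j) = nm (i + j) := by
  refine h2 _ _ ?_
  have h := ((tr_star (M := M) (arith_eq hN i) (0 : Fin 3)).imp
    ((tr_star (arith_eq hN j) 1).imp ((Tr.add hN hM 0 1 2).imp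
      (tr_star (arith_eq hN (i + j)) 2)))).univ hMN (fun v h3 h4 h5 => by
        rw [← h5, h3, h4]) ![nm i, nm j, p (nm i) (nm j)] (h1 i) (h1 j) rfl
  exact h

theorem nm_mul (hN : Ar ℕ (fun a b => a + b) (fun a b => a * b)) (hM : Ar M p q) {nm : ℕ → M}
    (h1 : ∀ k, star M (fun n => n = k) (nm k))
    (h2 : ∀ k m, star M (fun n => n = k) m → m = nm k) (i j : ℕ) :
    q (nm i) (nm j) = nm (i * j) := by
  refine h2 _ _ ?_
  have h := ((tr_star (M := M) (arith_eq hN i) (0 : Fin 3)).imp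
    ((tr_star (arith_eq hN j) 1).imp ((Tr.mul hN hM 0 1 2).imp
      (tr_star (arith_eq hN (i * j)) 2)))).univ hMN (fun v h3 h4 h5 => by
        rw [← h5, h3, h4]) ![nm i, nm j, q (nm i) (nm j)] (h1 i) (h1 j) rfl
  exact h

theorem nm_inj (hN : Ar ℕ (fun a b => a + b) (fun a b => a * b)) {nm : ℕ → M}
    (h1 : ∀ k, star M (fun n => n = k) (nm k)) : Function.Injective nm := by
  intro i j hij
  by_contra hne
  have h3 := h1 i
  rw [hij] at h3
  exact star_none hMN (arith_false hN) (fun _ h => h) (nm j)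
    (star_imp2 hMN (arith_eq hN i) (arith_eq hN j) (arith_false hN)
      (fun n h4 h5 => hne (h4.symm.trans h5)) h3 (h1 j))

/-- In a model which is not isomorphic to the standard one there is a nonstandard element. -/
theorem exists_big (hN : Ar ℕ (fun a b => a + b) (fun a b => a * b)) (hM : Ar M p q)
    (hne : IsEmpty (LL.Equiv M ℕ)) : ∃ b : M, ∀ k, star M (fun n => k ≤ n) b := by
  obtain ⟨nm, h1, h2⟩ := exists_nm hMN hN
  have hb : ∃ b : M, ∀ k, b ≠ nm k := by
    by_contra hcon
    push Not at hcon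
    have hbij : Function.Bijective nm :=
      ⟨nm_inj hMN hN h1, fun b => by
        obtain ⟨k, hk⟩ := hcon b
        exact ⟨k, hk.symm⟩⟩
    let f : ℕ ≃ M := Equiv.ofBijective nm hbij
    have hf : ∀ k, f k = nm k := fun k => rfl
    refine hne.false (?_ : LL.Equiv M ℕ)
    refine { f.symm with map_fun' := ?_, map_rel' := ?_ }
    · intro n g
      exact g.elim
    · intro n r xs
      have h3 : ∀ i, xs i = nm (f.symm (xs i)) := fun i => by
        rw [← hf, Equiv.apply_symm_apply]
      have h4 : ∀ {i j k : Fin n}, f.symm (xs i) + f.symm (xs j) = f.symm (xs k) ↔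
          p (xs i) (xs j) = xs k := by
        intro i j k
        rw [h3 i, h3 j, h3 k, nm_add hMN hN hM h1 h2]
        simp only [← hf, Equiv.symm_apply_apply, EmbeddingLike.apply_eq_iff_eq]
      have h5 : ∀ {i j k : Fin n}, f.symm (xs i) * f.symm (xs j) = f.symm (xs k) ↔
          q (xs i) (xs j) = xs k := by
        intro i j k
        rw [h3 i, h3 j, h3 k, nm_mul hMN hN hM h1 h2]
        simp only [← hf, Equiv.symm_apply_apply, EmbeddingLike.apply_eq_iff_eq]
      rw [hN, hM]
      constructor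
      · rintro ⟨i, j, k, hi, hj, hk, h6⟩
        exact ⟨i, j, k, hi, hj, hk, h6.imp (And.imp_right h4.1) (And.imp_right h5.1)⟩
      · rintro ⟨i, j, k, hi, hj, hk, h6⟩
        exact ⟨i, j, k, hi, hj, hk, h6.imp (And.imp_right h4.2) (And.imp_right h5.2)⟩
  obtain ⟨b, hb⟩ := hb
  refine ⟨b, fun k => ?_⟩
  induction k with
  | zero => exact star_all hMN (arith_le hN 0) (fun n => Nat.zero_le n) b
  | succ k ih =>
    refine star_imp2 hMN (arith_le hN k) (arith_eq hN k).not (arith_le hN (k + 1))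
      (fun n h3 h4 => by omega) ih ?_
    rw [star_not hMN (arith_eq hN k)]
    intro h3
    exact hb k (h2 k b h3)

end

end Pool.Agent.P8H91.Star
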