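import Pool.Agent.P8H91.Sep

/-!
The approximations with parameters coded by natural numbers.
-/

set_option autoImplicit false

namespace Pool.Agent.P8H91.Std

open Encodable Pool.Agent.Helper446 Pool.Agent.Helper446.RE
open Pool.Agent.P8H91.Cls Pool.Agent.P8H91.Dec Pool.Agent.P8H91.Non

/-- A polynomial pairing function. -/
def pr (x y : ℕ) : ℕ := (x + y) * (x + y) + x

/-- Left component. -/
def lft (z : ℕ) : ℕ := z - Nat.sqrt z * Nat.sqrt z

/-- Right component. -/
def rgt (z : ℕ) : ℕ := Nat.sqrt z - lft z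

theorem sqrt_pr (x y : ℕ) : Nat.sqrt (pr x y) = x + y := by
  unfold pr
  exact Nat.sqrt_add_eq _ (by omega)

theorem lft_pr (x y : ℕ) : lft (pr x y) = x := by
  unfold lft
  rw [sqrt_pr]
  unfold pr
  omega

theorem rgt_pr (x y : ℕ) : rgt (pr x y) = y := by
  unfold rgt
  rw [sqrt_pr, lft_pr]
  omega

section comp
variable {α : Type*} [Primcodable α]

@[fun_prop] theorem clft {f : α → ℕ} (hf : Computable f) : Computable fun x => lft (f x) := by
  unfold lft
  fun_prop

@[fun_prop] theorem crgt {f : α → ℕ} (hf : Computable f) : Computable fun x => rgt (f x) := by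
  unfold rgt
  fun_prop

@[fun_prop] theorem citer {f g : α → ℕ} (hf : Computable f) (hg : Computable g) :
    Computable fun x => lft^[f x] (g x) := by
  have h := Computable.nat_rec (f := f) (g := g) (h := fun (_ : α) (y : ℕ × ℕ) => lft y.2) hf hg
    (by
      show Computable fun x : α × (ℕ × ℕ) => lft x.2.2
      fun_prop)
  refine h.of_eq fun a => ?_
  generalize f a = n
  induction n with
  | zero => rfl
  | succ n ih =>
    rw [Function.iterate_succ_apply', ← ih]

end comp

/-- Bit `k` of the `i`th of the `j` elements coded in `u`. -/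
def ob (j u i k : ℕ) : Bool := (rgt (lft^[j - 1 - i] u)).testBit k

/-- The bottom element. -/
def bs (j u : ℕ) : ℕ := lft^[j] u

theorem ob_top (j u x k : ℕ) : ob (j + 1) (pr u x) j k = x.testBit k := by
  unfold ob
  have : j + 1 - 1 - j = 0 := by omega
  rw [this, Function.iterate_zero, id, rgt_pr]

theorem ob_low {i j : ℕ} (hi : i < j) (u x k : ℕ) : ob (j + 1) (pr u x) i k = ob j u i k := by
  unfold ob
  have : j + 1 - 1 - i = (j - 1 - i) + 1 := by omega
  rw [this, Function.iterate_succ_apply, lft_pr]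

theorem bs_succ (j u x : ℕ) : bs (j + 1) (pr u x) = bs j u := by
  unfold bs
  rw [Function.iterate_succ_apply, lft_pr]

/-- Existence of good approximations. -/
def NN (j l w u c : ℕ) : Prop := Non fbW pix j l w (ob j u) c

theorem dc_NN {α : Type*} [Primcodable α] {j l w u c : α → ℕ} (hj : Computable j)
    (hl : Computable l) (hw : Computable w) (hu : Computable u) (hc : Computable c) :
    Dc fun x => NN (j x) (l x) (w x) (u x) (c x) := by
  unfold NN
  refine dc_non_aux (ob := fun x => ob (j x) (u x)) hj hl hw hc ?_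
  unfold ob
  fun_prop

/-- The bit `i` is a good choice. -/
def Ch (i : Bool) (l w u : ℕ) : Prop :=
  ∀ c < bs (l + 1) u + 1, NN (l + 1) (l + 1) (ext l w (!i)) u c →
    NN (l + 1) (l + 1) (ext l w i) u c

theorem cext {α : Type*} [Primcodable α] {l w : α → ℕ} (hl : Computable l) (hw : Computable w)
    (i : Bool) : Computable fun x => ext (l x) (w x) i := by
  unfold ext
  fun_prop

theorem dc_Ch {α : Type*} [Primcodable α] {l w u : α → ℕ} (i : Bool)
    (hl : Computable l) (hw : Computable w) (hu : Computable u) :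
    Dc fun x => Ch i (l x) (w x) (u x) := by
  unfold Ch
  refine Dc.all_lt (p := fun x c => NN (l x + 1) (l x + 1) (ext (l x) (w x) (!i)) (u x) c →
    NN (l x + 1) (l x + 1) (ext (l x) (w x) i) (u x) c) ?_ (by unfold bs; fun_prop)
  have h1 : ∀ b, Computable fun x : α × ℕ => ext (l x.1) (w x.1) b := fun b =>
    cext (by fun_prop) (by fun_prop) b
  refine Dc.imp ?_ ?_
  · exact dc_NN (by fun_prop) (by fun_prop) (h1 _) (by fun_prop) (by fun_prop)
  · exact dc_NN (by fun_prop) (by fun_prop) (h1 _) (by fun_prop) (by fun_prop)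

/-- The bit `i` is a good choice, all parameters in one number. -/
def CH (i : Bool) (m : ℕ) : Prop := Ch i (lft m).unpair.1 (lft m).unpair.2 (rgt m)

theorem dc_CH (i : Bool) : Dc (CH i) := by
  unfold CH
  exact dc_Ch i (by fun_prop) (by fun_prop) (by fun_prop)

theorem CH_pr (i : Bool) (l w u : ℕ) : CH i (pr (Nat.pair l w) u) ↔ Ch i l w u := by
  unfold CH
  rw [lft_pr, rgt_pr, Nat.unpair_pair]

theorem S1 (l w u : ℕ) : Ch false l w u ∨ Ch true l w u := by
  by_contra hcon
  push Not at hcon
  unfold Ch at hcon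
  push Not at hcon
  obtain ⟨⟨c, _, h1, h2⟩, ⟨c', _, h3, h4⟩⟩ := hcon
  simp only [Bool.not_false, Bool.not_true] at h1 h3
  rcases le_total c c' with h | h
  · exact h2 (Non.anti h h3)
  · exact h4 (Non.anti h h1)

theorem S2 {i : Bool} {l w u c : ℕ} (hc : l < c) (h : Ch i l w u) (hb : c ≤ bs (l + 1) u)
    (hn : NN (l + 1) l w u c) : NN (l + 1) (l + 1) (ext l w i) u c := by
  obtain ⟨b, h1⟩ := non_split (le_refl _) hc hn
  by_cases h2 : b = i
  · subst h2
    exact h1
  · have h3 : b = !i := by cases b <;> cases i <;> simp_all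
    subst h3
    exact h c (by omega) h1

theorem S3 (j w c : ℕ) : ∃ c', j < c' ∧ ∀ u x, NN j j w u c' → NN (j + 1) j w (pr u x) c := by
  obtain ⟨c', h⟩ := non_code fbW_fb pix_spec j w c
  refine ⟨max c' (j + 1), by omega, fun u x hn => h _ ?_⟩
  refine Non.congr (fun i hi k => (ob_low hi u x k).symm) ?_
  exact Non.anti (le_max_left _ _) hn

theorem S4 (w u c : ℕ) : NN 0 0 w u c := non_init fbW_fb w _ c

theorem S5a {j l w u c : ℕ} (hc : l ≤ c) (h : NN j l w u c) :
    Okq fbW (fun k => w.testBit k) l := non_okq hc h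

theorem S5b {j l w u c i k : ℕ} (hc : l ≤ c) (hi : i < j) (hp : ps pix w i k < l)
    (h : NN j l w u c) : ob j u i k = w.testBit (ps pix w i k) := non_bit hc hi hp h

end Pool.Agent.P8H91.Std
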