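import Pool.Agent.H761R3.Sys
import Pool.Agent.P8H91.Std

/-!
Transfer of first order statements between two structures for the language of ternary graphs of
addition and multiplication.
-/

set_option autoImplicit false

open FirstOrder FirstOrder.Language

namespace Pool.Agent.P8H91.Tr

open Pool.Agent.H761R3.Sys

/-- The language. -/
abbrev LL : FirstOrder.Language.{0, 0} :=
  Language.mk (fun _ => Empty) (fun a => Fin (if a = 3 then 2 else 0))

/-- The structure on `M` is given by the two binary functions. -/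
def Ar (M : Type) [LL.Structure M] (p q : M → M → M) : Prop :=
  ∀ (n : ℕ) (r : LL.Relations n) (xs : Fin n → M),
    Structure.RelMap r xs ↔
      ∃ i j k : Fin n, i.val = 0 ∧ j.val = 1 ∧ k.val = 2 ∧
        ((Fin.val r = 0 ∧ p (xs i) (xs j) = xs k) ∨ (Fin.val r = 1 ∧ q (xs i) (xs j) = xs k))

/-- The symbol for addition. -/
def addR : LL.Relations 3 := (⟨0, by simp⟩ : Fin (if (3 : ℕ) = 3 then 2 else 0))

/-- The symbol for multiplication. -/
def mulR : LL.Relations 3 := (⟨1, by simp⟩ : Fin (if (3 : ℕ) = 3 then 2 else 0))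

section ar

variable {M : Type} [LL.Structure M] {p q : M → M → M}

theorem relMap_add (h : Ar M p q) (xs : Fin 3 → M) :
    Structure.RelMap addR xs ↔ p (xs 0) (xs 1) = xs 2 := by
  rw [h]
  constructor
  · rintro ⟨i, j, k, hi, hj, hk, h1 | h1⟩
    · obtain rfl : i = 0 := Fin.ext hi
      obtain rfl : j = 1 := Fin.ext hj
      obtain rfl : k = 2 := Fin.ext hk
      exact h1.2
    · exact absurd h1.1 (by simp [addR])
  · intro h1
    exact ⟨0, 1, 2, rfl, rfl, rfl, Or.inl ⟨rfl, h1⟩⟩

theorem relMap_mul (h : Ar M p q) (xs : Fin 3 → M) :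
    Structure.RelMap mulR xs ↔ q (xs 0) (xs 1) = xs 2 := by
  rw [h]
  constructor
  · rintro ⟨i, j, k, hi, hj, hk, h1 | h1⟩
    · exact absurd h1.1 (by simp [mulR])
    · obtain rfl : i = 0 := Fin.ext hi
      obtain rfl : j = 1 := Fin.ext hj
      obtain rfl : k = 2 := Fin.ext hk
      exact h1.2
  · intro h1
    exact ⟨0, 1, 2, rfl, rfl, rfl, Or.inr ⟨rfl, h1⟩⟩

end ar

variable {N M : Type} [LL.Structure N] [LL.Structure M]

/-- The relations `R` on `N` and `S` on `M` are defined by the same formula. -/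
def Tr (N M : Type) [LL.Structure N] [LL.Structure M] {α : Type} (R : (α → N) → Prop)
    (S : (α → M) → Prop) : Prop :=
  ∃ φ : LL.Formula α, (∀ v : α → N, φ.Realize v ↔ R v) ∧ ∀ v : α → M, φ.Realize v ↔ S v

variable {α β : Type}

theorem Tr.congr {R R' : (α → N) → Prop} {S S' : (α → M) → Prop} (h : Tr N M R S)
    (hR : ∀ v, R v ↔ R' v) (hS : ∀ v, S v ↔ S' v) : Tr N M R' S' := by
  obtain ⟨φ, h1, h2⟩ := h
  exact ⟨φ, fun v => (h1 v).trans (hR v), fun v => (h2 v).trans (hS v)⟩

theorem Tr.not {R : (α → N) → Prop} {S : (α → M) → Prop} (h : Tr N M R S) :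
    Tr N M (fun v => ¬ R v) (fun v => ¬ S v) := by
  obtain ⟨φ, h1, h2⟩ := h
  exact ⟨φ.not, fun v => by rw [Formula.realize_not, h1], fun v => by
    rw [Formula.realize_not, h2]⟩

theorem Tr.and {R R' : (α → N) → Prop} {S S' : (α → M) → Prop} (h : Tr N M R S)
    (h' : Tr N M R' S') : Tr N M (fun v => R v ∧ R' v) (fun v => S v ∧ S' v) := by
  obtain ⟨φ, h1, h2⟩ := h
  obtain ⟨ψ, h3, h4⟩ := h'
  exact ⟨φ ⊓ ψ, fun v => by rw [Formula.realize_inf, h1, h3], fun v => by
    rw [Formula.realize_inf, h2, h4]⟩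

theorem Tr.imp {R R' : (α → N) → Prop} {S S' : (α → M) → Prop} (h : Tr N M R S)
    (h' : Tr N M R' S') : Tr N M (fun v => R v → R' v) (fun v => S v → S' v) := by
  obtain ⟨φ, h1, h2⟩ := h
  obtain ⟨ψ, h3, h4⟩ := h'
  exact ⟨φ.imp ψ, fun v => by rw [Formula.realize_imp, h1, h3], fun v => by
    rw [Formula.realize_imp, h2, h4]⟩

theorem Tr.or {R R' : (α → N) → Prop} {S S' : (α → M) → Prop} (h : Tr N M R S)
    (h' : Tr N M R' S') : Tr N M (fun v => R v ∨ R' v) (fun v => S v ∨ S' v) :=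
  (h.not.imp h').congr (fun _ => or_iff_not_imp_left.symm) (fun _ => or_iff_not_imp_left.symm)

theorem Tr.relabel {R : (α → N) → Prop} {S : (α → M) → Prop} (h : Tr N M R S) (g : α → β) :
    Tr N M (fun v : β → N => R (v ∘ g)) (fun v : β → M => S (v ∘ g)) := by
  obtain ⟨φ, h1, h2⟩ := h
  exact ⟨φ.relabel g, fun v => by rw [Formula.realize_relabel, h1], fun v => by
    rw [Formula.realize_relabel, h2]⟩

theorem Tr.all [Finite β] {R : (α ⊕ β → N) → Prop} {S : (α ⊕ β → M) → Prop} (h : Tr N M R S) :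
    Tr N M (fun v => ∀ w : β → N, R (Sum.elim v w)) (fun v => ∀ w : β → M, S (Sum.elim v w)) := by
  obtain ⟨φ, h1, h2⟩ := h
  refine ⟨φ.iAlls β, fun v => ?_, fun v => ?_⟩
  · rw [Formula.realize_iAlls]
    exact forall_congr' fun w => h1 _
  · rw [Formula.realize_iAlls]
    exact forall_congr' fun w => h2 _

theorem Tr.ex [Finite β] {R : (α ⊕ β → N) → Prop} {S : (α ⊕ β → M) → Prop} (h : Tr N M R S) :
    Tr N M (fun v => ∃ w : β → N, R (Sum.elim v w)) (fun v => ∃ w : β → M, S (Sum.elim v w)) := by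
  obtain ⟨φ, h1, h2⟩ := h
  refine ⟨φ.iExs β, fun v => ?_, fun v => ?_⟩
  · rw [Formula.realize_iExs]
    exact exists_congr fun w => h1 _
  · rw [Formula.realize_iExs]
    exact exists_congr fun w => h2 _

theorem Tr.allFin [Finite β] {R : β → (α → N) → Prop} {S : β → (α → M) → Prop}
    (h : ∀ b, Tr N M (R b) (S b)) : Tr N M (fun v => ∀ b, R b v) (fun v => ∀ b, S b v) := by
  choose φ h1 h2 using h
  refine ⟨Formula.iInf φ, fun v => ?_, fun v => ?_⟩
  · rw [Formula.realize_iInf]
    exact forall_congr' fun b => h1 b v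
  · rw [Formula.realize_iInf]
    exact forall_congr' fun b => h2 b v

theorem Tr.allList {ι : Type} {R : ι → (α → N) → Prop} {S : ι → (α → M) → Prop} (l : List ι)
    (h : ∀ b ∈ l, Tr N M (R b) (S b)) :
    Tr N M (fun v => ∀ b ∈ l, R b v) (fun v => ∀ b ∈ l, S b v) := by
  have h1 := Tr.allFin (β := Fin l.length) (R := fun i => R (l.get i)) (S := fun i => S (l.get i))
    (fun i => h _ (List.get_mem _ _))
  refine h1.congr (fun v => ?_) (fun v => ?_)
  · constructor
    · intro h2 b hb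
      obtain ⟨i, rfl⟩ := List.get_of_mem hb
      exact h2 i
    · intro h2 i
      exact h2 _ (List.get_mem _ _)
  · constructor
    · intro h2 b hb
      obtain ⟨i, rfl⟩ := List.get_of_mem hb
      exact h2 i
    · intro h2 i
      exact h2 _ (List.get_mem _ _)

theorem Tr.eq (i j : α) : Tr N M (fun v => v i = v j) (fun v => v i = v j) :=
  ⟨Term.equal (Term.var i) (Term.var j), fun v => by
    rw [Formula.realize_equal]; rfl, fun v => by rw [Formula.realize_equal]; rfl⟩

/-- The functions `f` and `F` are defined by the same formula. -/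
def TrF (N M : Type) [LL.Structure N] [LL.Structure M] {α : Type} (f : (α → N) → N)
    (F : (α → M) → M) : Prop :=
  Tr N M (α := α ⊕ Unit) (fun v => f (v ∘ Sum.inl) = v (Sum.inr ()))
    (fun v => F (v ∘ Sum.inl) = v (Sum.inr ()))

theorem TrF.var (i : α) : TrF N M (fun v => v i) (fun v => v i) :=
  Tr.eq (Sum.inl i) (Sum.inr ())

/-- Substitution of functions in relations. -/
theorem Tr.subst [Finite β] {R : (β → N) → Prop} {S : (β → M) → Prop} (h : Tr N M R S)
    {f : β → (α → N) → N} {F : β → (α → M) → M} (hf : ∀ b, TrF N M (f b) (F b)) :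
    Tr N M (fun v => R fun b => f b v) (fun v => S fun b => F b v) := by
  have h1 : Tr N M (α := α ⊕ β) (fun v => ∀ b, f b (v ∘ Sum.inl) = v (Sum.inr b))
      (fun v => ∀ b, F b (v ∘ Sum.inl) = v (Sum.inr b)) := by
    refine Tr.allFin fun b => ?_
    exact (Tr.relabel (hf b) (Sum.map id (fun _ => b))).congr (fun v => Iff.rfl)
      (fun v => Iff.rfl)
  have h2 : Tr N M (α := α ⊕ β) (fun v => R (v ∘ Sum.inr)) (fun v => S (v ∘ Sum.inr)) :=
    h.relabel Sum.inr
  refine ((h1.and h2).ex).congr (fun v => ?_) (fun v => ?_)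
  · constructor
    · rintro ⟨w, h3, h4⟩
      have : w = fun b => f b v := funext fun b => (h3 b).symm
      rw [← this]
      exact h4
    · intro h3
      exact ⟨fun b => f b v, fun b => rfl, h3⟩
  · constructor
    · rintro ⟨w, h3, h4⟩
      have : w = fun b => F b v := funext fun b => (h3 b).symm
      rw [← this]
      exact h4
    · intro h3
      exact ⟨fun b => F b v, fun b => rfl, h3⟩

theorem Tr.univ (hMN : LL.ElementarilyEquivalent M N) [Finite α] {R : (α → N) → Prop}
    {S : (α → M) → Prop} (h : Tr N M R S) (hR : ∀ v, R v) : ∀ v, S v := by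
  have h1 := (h.relabel (Sum.inr : α → Empty ⊕ α)).all
  obtain ⟨φ, h2, h3⟩ := h1
  have h4 : Sentence.Realize N φ := by
    refine (h2 _).2 fun w => ?_
    exact hR _
  have h5 : Sentence.Realize M φ := (elementarilyEquivalent_iff.1 hMN φ).2 h4
  intro v
  exact (h3 _).1 h5 v

theorem Tr.exi (hMN : LL.ElementarilyEquivalent M N) [Finite α] {R : (α → N) → Prop}
    {S : (α → M) → Prop} (h : Tr N M R S) (hR : ∃ v, R v) : ∃ v, S v := by
  by_contra hcon
  push Not at hcon
  obtain ⟨v, hv⟩ := hR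
  have h1 : Tr M N (fun v => ¬ S v) (fun v => ¬ R v) := by
    obtain ⟨φ, h2, h3⟩ := h.not
    exact ⟨φ, h3, h2⟩
  exact h1.univ hMN.symm hcon v hv

section arith

variable {pN qN : N → N → N} {p q : M → M → M}

theorem Tr.add (hN : Ar N pN qN) (hM : Ar M p q) (i j k : α) :
    Tr N M (fun v => pN (v i) (v j) = v k) (fun v => p (v i) (v j) = v k) := by
  refine ⟨addR.formula ![Term.var i, Term.var j, Term.var k], fun v => ?_, fun v => ?_⟩
  · rw [Formula.realize_rel, relMap_add hN]
    rfl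
  · rw [Formula.realize_rel, relMap_add hM]
    rfl

theorem Tr.mul (hN : Ar N pN qN) (hM : Ar M p q) (i j k : α) :
    Tr N M (fun v => qN (v i) (v j) = v k) (fun v => q (v i) (v j) = v k) := by
  refine ⟨mulR.formula ![Term.var i, Term.var j, Term.var k], fun v => ?_, fun v => ?_⟩
  · rw [Formula.realize_rel, relMap_mul hN]
    rfl
  · rw [Formula.realize_rel, relMap_mul hM]
    rfl

theorem TrF.up {f : (α → N) → N} {F : (α → M) → M} (h : TrF N M f F) :
    TrF N M (fun v : α ⊕ Unit → N => f (v ∘ Sum.inl)) (fun v => F (v ∘ Sum.inl)) :=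
  (Tr.relabel h (Sum.map Sum.inl id)).congr (fun _ => Iff.rfl) (fun _ => Iff.rfl)

theorem TrF.add (hN : Ar N pN qN) (hM : Ar M p q) {f g : (α → N) → N} {F G : (α → M) → M}
    (hf : TrF N M f F) (hg : TrF N M g G) :
    TrF N M (fun v => pN (f v) (g v)) (fun v => p (F v) (G v)) := by
  have h := (Tr.add hN hM (α := Fin 3) 0 1 2).subst (α := α ⊕ Unit)
    (f := ![fun v => f (v ∘ Sum.inl), fun v => g (v ∘ Sum.inl), fun v => v (Sum.inr ())])
    (F := ![fun v => F (v ∘ Sum.inl), fun v => G (v ∘ Sum.inl), fun v => v (Sum.inr ())])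
    (by
      intro b
      fin_cases b
      · exact hf.up
      · exact hg.up
      · exact TrF.var _)
  exact h.congr (fun _ => Iff.rfl) (fun _ => Iff.rfl)

theorem TrF.mul (hN : Ar N pN qN) (hM : Ar M p q) {f g : (α → N) → N} {F G : (α → M) → M}
    (hf : TrF N M f F) (hg : TrF N M g G) :
    TrF N M (fun v => qN (f v) (g v)) (fun v => q (F v) (G v)) := by
  have h := (Tr.mul hN hM (α := Fin 3) 0 1 2).subst (α := α ⊕ Unit)
    (f := ![fun v => f (v ∘ Sum.inl), fun v => g (v ∘ Sum.inl), fun v => v (Sum.inr ())])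
    (F := ![fun v => F (v ∘ Sum.inl), fun v => G (v ∘ Sum.inl), fun v => v (Sum.inr ())])
    (by
      intro b
      fin_cases b
      · exact hf.up
      · exact hg.up
      · exact TrF.var _)
  exact h.congr (fun _ => Iff.rfl) (fun _ => Iff.rfl)

end arith

/-- Constraints in a structure. -/
def HoldsG {M : Type} (p q : M → M → M) (x : ℕ → M) : Con → Prop
  | .add i j l => p (x i) (x j) = x l
  | .one i => ¬ p (x i) (x i) = x i ∧ q (x i) (x i) = x i
  | .mul i j l => q (x i) (x j) = x l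

theorem holdsG_nat (x : ℕ → ℕ) (c : Con) :
    HoldsG (fun a b => a + b) (fun a b => a * b) x c ↔ c.Holds x := by
  cases c with
  | add i j l => exact Iff.rfl
  | mul i j l => exact Iff.rfl
  | one i =>
    show (¬ x i + x i = x i ∧ x i * x i = x i) ↔ x i = 1
    constructor
    · rintro ⟨h1, h2⟩
      have h3 : 0 < x i := by omega
      exact Nat.eq_of_mul_eq_mul_left h3 (by omega)
    · intro h
      rw [h]
      omega

theorem HoldsG.congr {M : Type} {p q : M → M → M} {x y : ℕ → M} {k : ℕ} {c : Con}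
    (hc : c.Below k) (hxy : ∀ i < k, x i = y i) (h : HoldsG p q x c) : HoldsG p q y c := by
  cases c with
  | add i j l =>
    obtain ⟨h1, h2, h3⟩ := hc
    show p (y i) (y j) = y l
    rw [← hxy i h1, ← hxy j h2, ← hxy l h3]
    exact h
  | mul i j l =>
    obtain ⟨h1, h2, h3⟩ := hc
    show q (y i) (y j) = y l
    rw [← hxy i h1, ← hxy j h2, ← hxy l h3]
    exact h
  | one i =>
    show ¬ p (y i) (y i) = y i ∧ q (y i) (y i) = y i
    rw [← hxy i hc]
    exact h

theorem Tr.con (α : Type) {pN qN : N → N → N} {p q : M → M → M} (hN : Ar N pN qN)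
    (hM : Ar M p q) (g : ℕ → α) (c : Con) :
    Tr N M (fun v : α → N => HoldsG pN qN (fun i => v (g i)) c)
      (fun v : α → M => HoldsG p q (fun i => v (g i)) c) := by
  cases c with
  | add i j l => exact Tr.add hN hM (g i) (g j) (g l)
  | mul i j l => exact Tr.mul hN hM (g i) (g j) (g l)
  | one i => exact (Tr.add hN hM (g i) (g i) (g i)).not.and (Tr.mul hN hM (g i) (g i) (g i))

/-- Solvability of a system. -/
def SysG {M : Type} (p q : M → M → M) (L : List Con) (m : M) : Prop :=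
  ∃ x : ℕ → M, x 0 = m ∧ ∀ c ∈ L, HoldsG p q x c

theorem Tr.sys {pN qN : N → N → N} {p q : M → M → M} (hN : Ar N pN qN)
    (hM : Ar M p q) {L : List Con} {k : ℕ} (hk : 1 ≤ k) (hL : ∀ c ∈ L, c.Below k) :
    Tr N M (α := Unit) (fun v => SysG pN qN L (v ())) (fun v => SysG p q L (v ())) := by
  obtain ⟨k, rfl⟩ : ∃ k', k = k' + 1 := ⟨k - 1, by omega⟩
  have h1 : Tr N M (α := Unit ⊕ Fin (k + 1))
      (fun v => v (Sum.inr 0) = v (Sum.inl ()) ∧
        ∀ c ∈ L, HoldsG pN qN (fun i => v (Sum.inr (Fin.ofNat (k + 1) i))) c)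
      (fun v => v (Sum.inr 0) = v (Sum.inl ()) ∧
        ∀ c ∈ L, HoldsG p q (fun i => v (Sum.inr (Fin.ofNat (k + 1) i))) c) := by
    refine (Tr.eq _ _).and (Tr.allList L fun c _ => ?_)
    exact Tr.con _ hN hM (fun i => (Sum.inr (Fin.ofNat (k + 1) i) : Unit ⊕ Fin (k + 1))) c
  have key : ∀ {K : Type} {p q : K → K → K} (m : K),
      (∃ w : Fin (k + 1) → K, w 0 = m ∧
        ∀ c ∈ L, HoldsG p q (fun i => w (Fin.ofNat (k + 1) i)) c) ↔ SysG p q L m := by
    intro K p q m
    constructor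
    · rintro ⟨w, h2, h3⟩
      exact ⟨fun i => w (Fin.ofNat (k + 1) i), h2, h3⟩
    · rintro ⟨x, h2, h3⟩
      refine ⟨fun i => x i, h2, fun c hc => ?_⟩
      refine (h3 c hc).congr (hL c hc) fun i hi => ?_
      simp [Nat.mod_eq_of_lt hi]
  refine h1.ex.congr (fun v => ?_) (fun v => ?_)
  · exact key (v ())
  · exact key (v ())

end Pool.Agent.P8H91.Tr
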